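import Mathlib

/-!
# Base change to an unramified extension
-/

set_option autoImplicit false

namespace Run7.h375.SH

open Polynomial IntermediateField
open scoped Pointwise

variable {K Ω : Type*} [Field K] [Field Ω] [Algebra K Ω]

/-! ### Valuation subrings -/

section vs

variable {A : ValuationSubring Ω} {x y : Ω}

theorem nonunit_iff : x ∈ A.nonunits ↔ x = 0 ∨ x⁻¹ ∉ A := ValuationSubring.mem_nonunits_iff_or A

theorem nonunit_mem (h : x ∈ A.nonunits) : x ∈ A := ValuationSubring.nonunits_subset h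

theorem nonunit_mul (hx : x ∈ A.nonunits) (hy : y ∈ A) : x * y ∈ A.nonunits := by
  rw [ValuationSubring.mem_nonunits_iff] at hx ⊢
  rw [map_mul]
  exact mul_lt_one_of_lt_of_le hx ((A.valuation_le_one_iff y).2 hy)

theorem one_nonunit : (1 : Ω) ∉ A.nonunits := by
  rw [ValuationSubring.mem_nonunits_iff, map_one]
  exact lt_irrefl _

theorem inv_of_not (h : x ∉ A.nonunits) : x ≠ 0 ∧ x⁻¹ ∈ A := by
  rw [nonunit_iff] at h
  push Not at h
  exact h

theorem not_inv_mem (h : x ∈ A.nonunits) (hx : x ≠ 0) : x⁻¹ ∉ A := by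
  rw [nonunit_iff] at h
  exact h.resolve_left hx

/-- If `x` is not a unit then `1 + x` is a unit. -/
theorem one_add_inv (h : x ∈ A.nonunits) : 1 + x ≠ 0 ∧ (1 + x)⁻¹ ∈ A := by
  apply inv_of_not
  intro h1
  apply one_nonunit (A := A)
  have h2 : (1 : Ω) = (1 + x) - x := by ring
  rw [h2]
  exact sub_mem h1 h

theorem mem_of_monic {h : Polynomial Ω} (hm : h.Monic) (hc : ∀ i, h.coeff i ∈ A) {β : Ω}
    (hβ : h.eval β = 0) : β ∈ A := by
  have h1 : h ∈ lifts (algebraMap A Ω) := by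
    rw [lifts_iff_coeff_lifts]
    intro i
    exact ⟨⟨h.coeff i, hc i⟩, rfl⟩
  obtain ⟨p, hp1, -, hp3⟩ := lifts_and_degree_eq_and_monic h1 hm
  have h2 : IsIntegral A β := ⟨p, hp3, by rw [← eval_map, hp1, hβ]⟩
  obtain ⟨y, hy⟩ := (IsIntegrallyClosed.isIntegral_iff (R := A) (K := Ω)).1 h2
  rw [← hy]
  exact y.2

theorem smul_nonunits {σ : Gal(Ω/K)} (h : σ • A = A) (hx : x ∈ A.nonunits) :
    σ x ∈ A.nonunits := by
  rw [nonunit_iff] at hx ⊢
  rcases hx with hx | hx
  · left
    rw [hx, map_zero]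
  · right
    intro h1
    apply hx
    have h2 : σ • x⁻¹ ∈ σ • A := by
      rw [h]
      show σ x⁻¹ ∈ A
      rwa [map_inv₀]
    exact ValuationSubring.smul_mem_pointwise_smul_iff.1 h2

end vs

/-- The conjugates of `θ`. -/
noncomputable def conjs (K : Type*) {Ω : Type*} [Field K] [Field Ω] [Algebra K Ω] (θ : Ω) :
    Finset Ω :=
  letI := Classical.decEq Ω
  ((minpoly K θ).aroots Ω).toFinset

section conjs

variable [IsGalois K Ω]

theorem integral (θ : Ω) : IsIntegral K θ := Algebra.IsIntegral.isIntegral θ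

theorem mem_conjs {θ y : Ω} : y ∈ conjs K θ ↔ ∃ σ : Gal(Ω/K), σ θ = y := by
  classical
  unfold conjs
  rw [Multiset.mem_toFinset, mem_aroots]
  constructor
  · rintro ⟨-, h⟩
    have h1 : minpoly K y = minpoly K θ := by
      symm
      exact minpoly.eq_of_irreducible_of_monic (minpoly.irreducible (integral θ)) h
        (minpoly.monic (integral θ))
    obtain ⟨σ, hσ⟩ := (Normal.minpoly_eq_iff_mem_orbit Ω).1 h1
    exact ⟨σ, hσ⟩
  · rintro ⟨σ, rfl⟩
    refine ⟨minpoly.ne_zero (integral θ), ?_⟩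
    rw [aeval_algEquiv, AlgHom.comp_apply]
    show σ (aeval θ (minpoly K θ)) = 0
    rw [minpoly.aeval, map_zero]

theorem self_mem (θ : Ω) : θ ∈ conjs K θ := mem_conjs.2 ⟨1, rfl⟩

theorem smul_mem_conjs {θ y : Ω} (σ : Gal(Ω/K)) (h : y ∈ conjs K θ) : σ y ∈ conjs K θ := by
  obtain ⟨τ, rfl⟩ := mem_conjs.1 h
  exact mem_conjs.2 ⟨σ * τ, rfl⟩

theorem minpoly_prod (θ : Ω) : (minpoly K θ).map (algebraMap K Ω) =
    ∏ y ∈ conjs K θ, (X - C y) := by
  classical
  have h1 : ((minpoly K θ).map (algebraMap K Ω)).Splits := IsGalois.splits K θ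
  have h2 : ((minpoly K θ).map (algebraMap K Ω)).Monic := (minpoly.monic (integral θ)).map _
  have h3 := h1.eq_prod_roots_of_monic h2
  have h4 : (minpoly K θ).Separable := IsGalois.separable K θ
  have h5 : ((minpoly K θ).aroots Ω).Nodup := nodup_roots h4.map
  unfold conjs
  rw [Finset.prod, Multiset.toFinset_val, Multiset.dedup_eq_self.2 h5]
  exact h3

theorem card_conjs (θ : Ω) : (conjs K θ).card = (minpoly K θ).natDegree := by
  have h1 := congrArg natDegree (minpoly_prod (K := K) θ)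
  rw [natDegree_map, natDegree_prod_of_monic _ _ fun i _ => monic_X_sub_C i] at h1
  rw [h1]
  simp

end conjs

end Run7.h375.SH
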