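import Mathlib

/-!
# Cocycles on subgroups, divisible classes and their descent
-/

set_option autoImplicit false

namespace Run7.h375.SH

open Subgroup

variable {G A : Type*} [Group G] [AddCommGroup A]

/-- `f` is a 1-cocycle on the subgroup `H`. -/
def Coc (ρ : G →* AddMonoid.End A) (H : Subgroup G) (f : G → A) : Prop :=
  ∀ σ ∈ H, ∀ τ ∈ H, f (σ * τ) = f σ + ρ σ (f τ)

/-- `f` is a coboundary on the subgroup `H`. -/
def Cob (ρ : G →* AddMonoid.End A) (H : Subgroup G) (f : G → A) : Prop :=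
  ∃ a : A, ∀ σ ∈ H, f σ = ρ σ a - a

/-- `f` is zero on an open subgroup of `H`. -/
def Smooth [TopologicalSpace G] (H : Subgroup G) (f : G → A) : Prop :=
  ∃ U : Subgroup G, IsOpen (U : Set G) ∧ ∀ σ ∈ U, σ ∈ H → f σ = 0

/-- A continuous cocycle on `H` whose restrictions to the groups `H ⊓ D w` are coboundaries. -/
structure Sha [TopologicalSpace G] {ι : Type*} (ρ : G →* AddMonoid.End A) (D : ι → Subgroup G)
    (H : Subgroup G) (f : G → A) : Prop where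
  coc : Coc ρ H f
  smooth : Smooth H f
  loc : ∀ w, Cob ρ (H ⊓ D w) f

/-- A sequence of classes with `x 0 = 0` and `ℓ x (i + 1) = x i`. -/
structure Tate [TopologicalSpace G] {ι : Type*} (ρ : G →* AddMonoid.End A) (D : ι → Subgroup G)
    (ℓ : ℕ) (H : Subgroup G) (x : ℕ → G → A) : Prop where
  sha : ∀ i, Sha ρ D H (x i)
  zero : Cob ρ H (x 0)
  step : ∀ i, Cob ρ H (ℓ • x (i + 1) - x i)

/-- There is no nonzero divisible sequence. -/
def Free [TopologicalSpace G] {ι : Type*} (ρ : G →* AddMonoid.End A) (D : ι → Subgroup G)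
    (ℓ : ℕ) (H : Subgroup G) : Prop :=
  ∀ x, Tate ρ D ℓ H x → ∀ i, Cob ρ H (x i)

/-- Every divisible sequence on the subgroup `H'` has a multiple that comes from `H`. -/
def NoGrowth [TopologicalSpace G] {ι : Type*} (ρ : G →* AddMonoid.End A) (D : ι → Subgroup G)
    (ℓ : ℕ) (H H' : Subgroup G) : Prop :=
  ∀ x, Tate ρ D ℓ H' x → ∃ m : ℕ, m ≠ 0 ∧ ∃ y, Tate ρ D ℓ H y ∧ ∀ i, Cob ρ H' (m • x i - y i)

variable {ρ : G →* AddMonoid.End A} {H H' : Subgroup G} {f g : G → A}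

theorem Cob.add (hf : Cob ρ H f) (hg : Cob ρ H g) : Cob ρ H (f + g) := by
  obtain ⟨a, ha⟩ := hf
  obtain ⟨b, hb⟩ := hg
  refine ⟨a + b, fun σ hσ => ?_⟩
  rw [Pi.add_apply, ha σ hσ, hb σ hσ, map_add]
  abel

theorem Cob.zero : Cob ρ H (0 : G → A) := ⟨0, fun σ _ => by simp⟩

theorem Cob.neg (hf : Cob ρ H f) : Cob ρ H (-f) := by
  obtain ⟨a, ha⟩ := hf
  refine ⟨-a, fun σ hσ => ?_⟩
  rw [Pi.neg_apply, ha σ hσ, map_neg]
  abel

/-- The coboundaries. -/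
def cobS (ρ : G →* AddMonoid.End A) (H : Subgroup G) : AddSubgroup (G → A) where
  carrier := {f | Cob ρ H f}
  add_mem' := Cob.add
  zero_mem' := Cob.zero
  neg_mem' := Cob.neg

theorem mem_cobS : f ∈ cobS ρ H ↔ Cob ρ H f := Iff.rfl

theorem Cob.sub (hf : Cob ρ H f) (hg : Cob ρ H g) : Cob ρ H (f - g) := (cobS ρ H).sub_mem hf hg

theorem Cob.nsmul (n : ℕ) (hf : Cob ρ H f) : Cob ρ H (n • f) := (cobS ρ H).nsmul_mem hf n

theorem Cob.sum {ι : Type*} {s : Finset ι} {F : ι → G → A} (h : ∀ i ∈ s, Cob ρ H (F i)) :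
    Cob ρ H (∑ i ∈ s, F i) := (cobS ρ H).sum_mem h

theorem Cob.mono (h : H' ≤ H) (hf : Cob ρ H f) : Cob ρ H' f := by
  obtain ⟨a, ha⟩ := hf
  exact ⟨a, fun σ hσ => ha σ (h hσ)⟩

theorem Cob.congr (hf : Cob ρ H f) (h : ∀ σ ∈ H, f σ = g σ) : Cob ρ H g := by
  obtain ⟨a, ha⟩ := hf
  exact ⟨a, fun σ hσ => by rw [← h σ hσ, ha σ hσ]⟩

theorem Coc.mono (h : H' ≤ H) (hf : Coc ρ H f) : Coc ρ H' f :=
  fun σ hσ τ hτ => hf σ (h hσ) τ (h hτ)

theorem Coc.add (hf : Coc ρ H f) (hg : Coc ρ H g) : Coc ρ H (f + g) := by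
  intro σ hσ τ hτ
  rw [Pi.add_apply, Pi.add_apply, Pi.add_apply, hf σ hσ τ hτ, hg σ hσ τ hτ, map_add]
  abel

theorem Coc.neg (hf : Coc ρ H f) : Coc ρ H (-f) := by
  intro σ hσ τ hτ
  rw [Pi.neg_apply, Pi.neg_apply, Pi.neg_apply, hf σ hσ τ hτ, map_neg]
  abel

theorem Coc.sub (hf : Coc ρ H f) (hg : Coc ρ H g) : Coc ρ H (f - g) := by
  rw [sub_eq_add_neg]
  exact hf.add hg.neg

theorem Coc.zero : Coc ρ H (0 : G → A) := fun σ _ τ _ => by simp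

theorem Coc.nsmul (n : ℕ) (hf : Coc ρ H f) : Coc ρ H (n • f) := by
  intro σ hσ τ hτ
  rw [Pi.smul_apply, Pi.smul_apply, Pi.smul_apply, hf σ hσ τ hτ, map_nsmul, smul_add]

theorem Smooth.nsmul [TopologicalSpace G] (n : ℕ) (hf : Smooth H f) : Smooth H (n • f) := by
  obtain ⟨U, hU, h⟩ := hf
  exact ⟨U, hU, fun σ h1 h2 => by rw [Pi.smul_apply, h σ h1 h2, smul_zero]⟩

theorem Smooth.mono [TopologicalSpace G] (h : H' ≤ H) (hf : Smooth H f) : Smooth H' f := by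
  obtain ⟨U, hU, hf⟩ := hf
  exact ⟨U, hU, fun σ h1 h2 => hf σ h1 (h h2)⟩

/-- A cocycle that is a coboundary on a subgroup of index `n`: its `n`-th multiple is a
coboundary. -/
theorem cob_of_finite (hle : H' ≤ H) (hn : H'.relIndex H ≠ 0) (hf : Coc ρ H f)
    (hc : Cob ρ H' f) : Cob ρ H (H'.relIndex H • f) := by
  classical
  obtain ⟨a, ha⟩ := hc
  have hfi : (H'.subgroupOf H).FiniteIndex := ⟨hn⟩
  have ft : Fintype (H ⧸ H'.subgroupOf H) := Fintype.ofFinite _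
  have hcard : Fintype.card (H ⧸ H'.subgroupOf H) = H'.relIndex H := by
    rw [← Nat.card_eq_fintype_card]
    rfl
  -- the normalized cocycle
  let f' : G → A := fun σ => f σ - (ρ σ a - a)
  have hf' : ∀ σ ∈ H, ∀ τ ∈ H, f' (σ * τ) = f' σ + ρ σ (f' τ) := by
    intro σ hσ τ hτ
    show f (σ * τ) - (ρ (σ * τ) a - a) = f σ - (ρ σ a - a) + ρ σ (f τ - (ρ τ a - a))
    rw [hf σ hσ τ hτ, map_mul, map_sub, map_sub]
    show f σ + ρ σ (f τ) - (ρ σ (ρ τ a) - a) = _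
    abel
  have hf0 : ∀ τ ∈ H', f' τ = 0 := fun τ hτ => by
    show f τ - (ρ τ a - a) = 0
    rw [ha τ hτ, sub_self]
  have hinv : ∀ σ ∈ H, ∀ τ ∈ H', f' (σ * τ) = f' σ := by
    intro σ hσ τ hτ
    rw [hf' σ hσ τ (hle hτ), hf0 τ hτ, map_zero, add_zero]
  let s : H ⧸ H'.subgroupOf H → H := fun c => c.out
  set b : A := ∑ c, f' (s c) with hb
  refine ⟨H'.relIndex H • a - b, fun σ hσ => ?_⟩
  have h1 : ∀ c : H ⧸ H'.subgroupOf H, f' (s ((⟨σ, hσ⟩ : H) • c)) = f' σ + ρ σ (f' (s c)) := by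
    intro c
    rw [← hf' σ hσ _ (s c).2]
    have h2 : (((⟨σ, hσ⟩ : H) • c : H ⧸ H'.subgroupOf H)) =
        QuotientGroup.mk ((⟨σ, hσ⟩ : H) * s c) := by
      conv_lhs => rw [← QuotientGroup.out_eq' c]
      rfl
    obtain ⟨τ, hτ⟩ := QuotientGroup.mk_out_eq_mul (H'.subgroupOf H) ((⟨σ, hσ⟩ : H) * s c)
    have h3 : (s ((⟨σ, hσ⟩ : H) • c) : G) = (σ * s c) * ((τ : H) : G) := by
      have h4 := congrArg (fun z : H => (z : G)) hτ
      show (((⟨σ, hσ⟩ : H) • c).out : G) = _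
      rw [h2]
      exact h4
    rw [h3]
    exact hinv _ (H.mul_mem hσ (s c).2) _ τ.2
  have h2 : b = H'.relIndex H • f' σ + ρ σ b := by
    calc b = ∑ c, f' (s ((⟨σ, hσ⟩ : H) • c)) :=
          (Equiv.sum_comp (MulAction.toPerm (⟨σ, hσ⟩ : H)) fun c => f' (s c)).symm
      _ = ∑ c, (f' σ + ρ σ (f' (s c))) := Finset.sum_congr rfl fun c _ => h1 c
      _ = _ := by
        rw [Finset.sum_add_distrib, Finset.sum_const, Finset.card_univ, hcard, ← map_sum]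
  have h3 : f σ = f' σ + (ρ σ a - a) := by
    show f σ = f σ - (ρ σ a - a) + (ρ σ a - a)
    abel
  have h4 : H'.relIndex H • f' σ = b - ρ σ b := by
    rw [eq_sub_iff_add_eq]
    exact h2.symm
  rw [Pi.smul_apply, h3, smul_add, h4, map_sub, map_nsmul, smul_sub]
  abel

/-- The sequences with `z 0 = 0`, `ℓ z (i + 1) = z i` have no torsion. -/
theorem cob_torsion {ℓ : ℕ} (hℓ : ℓ.Prime) {z : ℕ → G → A} (h0 : Cob ρ H (z 0))
    (hs : ∀ i, Cob ρ H (ℓ • z (i + 1) - z i)) {m : ℕ} (hm : m ≠ 0) (h : ∀ i, Cob ρ H (m • z i)) :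
    ∀ i, Cob ρ H (z i) := by
  have h1 : ∀ k i, Cob ρ H (ℓ ^ k • z (i + k) - z i) := by
    intro k
    induction k with
    | zero =>
      intro i
      have : (ℓ ^ 0 • z (i + 0) - z i) = 0 := by simp
      rw [this]
      exact Cob.zero
    | succ k ih =>
      intro i
      have h2 := (hs (i + k)).nsmul (ℓ ^ k)
      have h3 := h2.add (ih i)
      have h4 : ℓ ^ k • (ℓ • z (i + k + 1) - z (i + k)) + (ℓ ^ k • z (i + k) - z i) =
          ℓ ^ (k + 1) • z (i + (k + 1)) - z i := by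
        rw [smul_sub, smul_smul, ← pow_succ, ← add_assoc]
        abel
      rwa [h4] at h3
  intro i
  obtain ⟨a, b, hb, hab⟩ := Nat.exists_eq_pow_mul_and_not_dvd hm ℓ hℓ.ne_one
  have h2 : Cob ρ H (b • z i) := by
    have h3 := (h1 a i).nsmul b
    have h4 := h (i + a)
    have h5 : m • z (i + a) - b • (ℓ ^ a • z (i + a) - z i) = b • z i := by
      rw [hab, smul_sub, smul_smul, mul_comm b]
      abel
    rw [← h5]
    exact h4.sub h3
  have h3 : Cob ρ H (ℓ ^ i • z i) := by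
    have h4 := h1 i 0
    rw [zero_add] at h4
    have h5 : ℓ ^ i • z i = (ℓ ^ i • z i - z 0) + z 0 := by abel
    rw [h5]
    exact h4.add h0
  have hcop : Nat.Coprime b (ℓ ^ i) := by
    apply Nat.Coprime.pow_right
    rw [Nat.coprime_comm]
    exact (Nat.Prime.coprime_iff_not_dvd hℓ).2 hb
  have h4 : (Nat.gcdA b (ℓ ^ i)) • (b • z i) + (Nat.gcdB b (ℓ ^ i)) • (ℓ ^ i • z i) = z i := by
    have h5 := Nat.gcd_eq_gcd_ab b (ℓ ^ i)
    rw [hcop.gcd_eq_one] at h5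
    rw [← natCast_zsmul (z i) b, ← natCast_zsmul (z i) (ℓ ^ i), smul_smul, smul_smul, ← add_smul,
      mul_comm, mul_comm (Nat.gcdB b (ℓ ^ i)), ← h5, Nat.cast_one, one_smul]
  rw [← h4]
  exact (cobS ρ H).add_mem ((cobS ρ H).zsmul_mem h2 _) ((cobS ρ H).zsmul_mem h3 _)

/-! ### Conjugation -/

/-- The conjugate of a cochain. -/
def cj (ρ : G →* AddMonoid.End A) (g : G) (f : G → A) : G → A :=
  fun σ => ρ g (f (g⁻¹ * σ * g))

theorem cj_mul (a b : G) : cj ρ (a * b) f = cj ρ a (cj ρ b f) := by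
  funext σ
  show ρ (a * b) (f ((a * b)⁻¹ * σ * (a * b))) = ρ a (ρ b (f (b⁻¹ * (a⁻¹ * σ * a) * b)))
  rw [map_mul]
  have h1 : (a * b)⁻¹ * σ * (a * b) = b⁻¹ * (a⁻¹ * σ * a) * b := by group
  rw [h1]
  rfl

theorem cj_sub (a : G) (f g : G → A) : cj ρ a (f - g) = cj ρ a f - cj ρ a g := by
  funext σ
  exact map_sub _ _ _

theorem cj_nsmul (a : G) (n : ℕ) (f : G → A) : cj ρ a (n • f) = n • cj ρ a f := by
  funext σ
  exact map_nsmul _ _ _

theorem Coc.cj {a : G} (ha : ∀ x ∈ H, a⁻¹ * x * a ∈ H) (hf : Coc ρ H f) : Coc ρ H (cj ρ a f) := by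
  intro σ hσ τ hτ
  show ρ a (f (a⁻¹ * (σ * τ) * a)) = ρ a (f (a⁻¹ * σ * a)) + ρ σ (ρ a (f (a⁻¹ * τ * a)))
  have h1 : a⁻¹ * (σ * τ) * a = (a⁻¹ * σ * a) * (a⁻¹ * τ * a) := by group
  rw [h1, hf _ (ha σ hσ) _ (ha τ hτ), map_add]
  congr 1
  have h2 : ρ a (ρ (a⁻¹ * σ * a) (f (a⁻¹ * τ * a))) = (ρ a * ρ (a⁻¹ * σ * a)) (f (a⁻¹ * τ * a)) := rfl
  have h3 : ρ σ (ρ a (f (a⁻¹ * τ * a))) = (ρ σ * ρ a) (f (a⁻¹ * τ * a)) := rfl
  rw [h2, h3, ← map_mul, ← map_mul]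
  congr 2
  group

theorem Cob.cj {a : G} (ha : ∀ x ∈ H, a⁻¹ * x * a ∈ H) (hf : Cob ρ H f) : Cob ρ H (cj ρ a f) := by
  obtain ⟨b, hb⟩ := hf
  refine ⟨ρ a b, fun σ hσ => ?_⟩
  show ρ a (f (a⁻¹ * σ * a)) = ρ σ (ρ a b) - ρ a b
  rw [hb _ (ha σ hσ), map_sub]
  congr 1
  have h2 : ρ a (ρ (a⁻¹ * σ * a) b) = (ρ a * ρ (a⁻¹ * σ * a)) b := rfl
  have h3 : ρ σ (ρ a b) = (ρ σ * ρ a) b := rfl
  rw [h2, h3, ← map_mul, ← map_mul]
  congr 2
  group

/-- Inner conjugation acts trivially on the classes. -/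
theorem cj_self {a : G} (ha : a ∈ H) (hf : Coc ρ H f) : Cob ρ H (cj ρ a f - f) := by
  refine ⟨f a, fun σ hσ => ?_⟩
  show ρ a (f (a⁻¹ * σ * a)) - f σ = ρ σ (f a) - f a
  have h1 : f (a * (a⁻¹ * σ * a)) = f a + ρ a (f (a⁻¹ * σ * a)) :=
    hf a ha _ (H.mul_mem (H.mul_mem (H.inv_mem ha) hσ) ha)
  have h2 : f (σ * a) = f σ + ρ σ (f a) := hf σ hσ a ha
  have h3 : a * (a⁻¹ * σ * a) = σ * a := by group
  rw [h3, h2] at h1
  have h4 : ρ a (f (a⁻¹ * σ * a)) = f σ + ρ σ (f a) - f a := by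
    rw [h1]
    abel
  rw [h4]
  abel

/-! ### Corestriction -/

section cor

open Classical in
/-- The corestriction. -/
noncomputable def cor (ρ : G →* AddMonoid.End A) (H H' : Subgroup G)
    [Fintype (H ⧸ H'.subgroupOf H)] (f : G → A) : G → A := fun σ =>
  if h : σ ∈ H then ∑ c : H ⧸ H'.subgroupOf H, ρ ((c.out : H) : G)
    (f (((c.out : H) : G)⁻¹ * σ * (((⟨σ, h⟩ : H)⁻¹ • c).out : H))) else 0

variable [Fintype (H ⧸ H'.subgroupOf H)]

theorem cor_apply {σ : G} (h : σ ∈ H) : cor ρ H H' f σ =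
    ∑ c : H ⧸ H'.subgroupOf H, ρ ((c.out : H) : G)
      (f (((c.out : H) : G)⁻¹ * σ * (((⟨σ, h⟩ : H)⁻¹ • c).out : H))) := dif_pos h

omit [Fintype (H ⧸ H'.subgroupOf H)] in
theorem mem_aux (σ : H) (c : H ⧸ H'.subgroupOf H) :
    ((c.out : H) : G)⁻¹ * σ * ((σ⁻¹ • c).out : H) ∈ H' := by
  have h1 : (QuotientGroup.mk (σ * (σ⁻¹ • c).out) : H ⧸ H'.subgroupOf H) = c := by
    have h2 : (QuotientGroup.mk (σ * (σ⁻¹ • c).out) : H ⧸ H'.subgroupOf H) =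
        σ • QuotientGroup.mk ((σ⁻¹ • c).out) := rfl
    rw [h2, QuotientGroup.out_eq', smul_inv_smul]
  have h3 : (QuotientGroup.mk (c.out) : H ⧸ H'.subgroupOf H) =
      QuotientGroup.mk (σ * (σ⁻¹ • c).out) := by
    rw [h1, QuotientGroup.out_eq']
  rw [QuotientGroup.eq, mem_subgroupOf] at h3
  have h4 : ((c.out : H) : G)⁻¹ * σ * ((σ⁻¹ • c).out : H) =
      ((c.out⁻¹ * (σ * (σ⁻¹ • c).out) : H) : G) := by
    push_cast
    group
  rw [h4]
  exact h3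

theorem cor_coc (hf : Coc ρ H' f) : Coc ρ H (cor ρ H H' f) := by
  intro σ hσ τ hτ
  rw [cor_apply (H.mul_mem hσ hτ), cor_apply hσ, cor_apply hτ, map_sum]
  have h1 : ∑ c : H ⧸ H'.subgroupOf H, ρ σ (ρ ((c.out : H) : G)
      (f (((c.out : H) : G)⁻¹ * τ * (((⟨τ, hτ⟩ : H)⁻¹ • c).out : H)))) =
      ∑ c : H ⧸ H'.subgroupOf H, ρ σ (ρ ((((⟨σ, hσ⟩ : H)⁻¹ • c).out : H) : G)
      (f (((((⟨σ, hσ⟩ : H)⁻¹ • c).out : H) : G)⁻¹ * τ *
        (((⟨τ, hτ⟩ : H)⁻¹ • ((⟨σ, hσ⟩ : H)⁻¹ • c)).out : H)))) :=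
    (Equiv.sum_comp (MulAction.toPerm (⟨σ, hσ⟩ : H)⁻¹) fun c : H ⧸ H'.subgroupOf H =>
      ρ σ (ρ ((c.out : H) : G)
      (f (((c.out : H) : G)⁻¹ * τ * (((⟨τ, hτ⟩ : H)⁻¹ • c).out : H))))).symm
  rw [h1, ← Finset.sum_add_distrib]
  refine Finset.sum_congr rfl fun c _ => ?_
  set σ' : H := ⟨σ, hσ⟩
  set τ' : H := ⟨τ, hτ⟩
  have e : ((⟨σ * τ, H.mul_mem hσ hτ⟩ : H)⁻¹ • c) = τ'⁻¹ • (σ'⁻¹ • c) := by
    rw [smul_smul, ← mul_inv_rev]
    rfl
  rw [e]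
  set d := σ'⁻¹ • c with hd
  set r := τ'⁻¹ • d with hr
  have m1 : ((c.out : H) : G)⁻¹ * σ * (d.out : H) ∈ H' := mem_aux σ' c
  have m2 : ((d.out : H) : G)⁻¹ * τ * (r.out : H) ∈ H' := mem_aux τ' d
  have e2 : ((c.out : H) : G)⁻¹ * (σ * τ) * (r.out : H) =
      (((c.out : H) : G)⁻¹ * σ * (d.out : H)) * (((d.out : H) : G)⁻¹ * τ * (r.out : H)) := by
    group
  rw [e2, hf _ m1 _ m2, map_add]
  congr 1
  have h2 : ∀ (x y : G) (z : A), ρ x (ρ y z) = ρ (x * y) z := fun x y z => by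
    rw [map_mul]
    rfl
  rw [h2, h2]
  congr 2
  group

theorem cor_restrict (hn : ∀ h ∈ H, ∀ x ∈ H', h * x * h⁻¹ ∈ H') (hle : H' ≤ H) {σ : G}
    (hσ : σ ∈ H') : cor ρ H H' f σ =
      (∑ c : H ⧸ H'.subgroupOf H, cj ρ ((c.out : H) : G) f) σ := by
  rw [cor_apply (hle hσ), Finset.sum_apply]
  refine Finset.sum_congr rfl fun c _ => ?_
  have h1 : (⟨σ, hle hσ⟩ : H)⁻¹ • c = c := by
    rw [inv_smul_eq_iff]
    have h2 : (⟨σ, hle hσ⟩ : H) • c = QuotientGroup.mk ((⟨σ, hle hσ⟩ : H) * c.out) := by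
      conv_lhs => rw [← QuotientGroup.out_eq' c]
      rfl
    rw [h2]
    conv_lhs => rw [← QuotientGroup.out_eq' c]
    rw [QuotientGroup.eq, mem_subgroupOf]
    have h3 := hn _ (H.inv_mem (c.out).2) σ hσ
    have h4 : ((c.out⁻¹ * ((⟨σ, hle hσ⟩ : H) * c.out) : H) : G) =
        ((c.out : H) : G)⁻¹ * σ * ((c.out : H) : G)⁻¹⁻¹ := by
      push_cast
      group
    rw [h4]
    exact h3
  rw [h1]
  rfl

theorem cor_smooth [TopologicalSpace G] [ContinuousMul G] (hH' : IsOpen (H' : Set G))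
    (hn : ∀ h ∈ H, ∀ x ∈ H', h * x * h⁻¹ ∈ H') (hle : H' ≤ H)
    (hf : Smooth H' f) : Smooth H (cor ρ H H' f) := by
  obtain ⟨U, hU, hf⟩ := hf
  refine ⟨H' ⊓ ⨅ c : H ⧸ H'.subgroupOf H, U.map (MulAut.conj ((c.out : H) : G)).toMonoidHom, ?_, ?_⟩
  · rw [coe_inf, coe_iInf]
    refine hH'.inter (isOpen_iInter_of_finite fun c => ?_)
    have h1 : ((U.map (MulAut.conj ((c.out : H) : G)).toMonoidHom : Subgroup G) : Set G) =
        {x | ((c.out : H) : G)⁻¹ * x * ((c.out : H) : G) ∈ U} := by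
      ext x
      constructor
      · rintro ⟨y, hy, rfl⟩
        show ((c.out : H) : G)⁻¹ * (((c.out : H) : G) * y * ((c.out : H) : G)⁻¹) *
          ((c.out : H) : G) ∈ U
        have h2 : ((c.out : H) : G)⁻¹ * (((c.out : H) : G) * y * ((c.out : H) : G)⁻¹) *
          ((c.out : H) : G) = y := by group
        rw [h2]
        exact hy
      · intro hx
        refine ⟨_, hx, ?_⟩
        show ((c.out : H) : G) * (((c.out : H) : G)⁻¹ * x * ((c.out : H) : G)) *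
          ((c.out : H) : G)⁻¹ = x
        group
    rw [h1]
    exact hU.preimage ((continuous_const.mul continuous_id).mul continuous_const)
  · intro σ hσ _
    obtain ⟨hσ1, hσ2⟩ := mem_inf.1 hσ
    rw [cor_restrict hn hle hσ1, Finset.sum_apply]
    refine Finset.sum_eq_zero fun c _ => ?_
    rw [mem_iInf] at hσ2
    obtain ⟨y, hy, hyσ⟩ := hσ2 c
    have h1 : ((c.out : H) : G)⁻¹ * σ * ((c.out : H) : G) = y := by
      rw [← hyσ]
      show ((c.out : H) : G)⁻¹ * (((c.out : H) : G) * y * ((c.out : H) : G)⁻¹) *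
          ((c.out : H) : G) = y
      group
    have h2 : y ∈ H' := by
      rw [← h1]
      have h3 := hn _ (H.inv_mem (c.out).2) σ hσ1
      rw [inv_inv] at h3
      exact h3
    show ρ _ (f _) = 0
    rw [h1, hf y hy h2, map_zero]

theorem cor_sub (f g : G → A) : cor ρ H H' (f - g) = cor ρ H H' f - cor ρ H H' g := by
  funext σ
  by_cases h : σ ∈ H
  · rw [Pi.sub_apply, cor_apply h, cor_apply h, cor_apply h, ← Finset.sum_sub_distrib]
    exact Finset.sum_congr rfl fun c _ => map_sub _ _ _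
  · rw [Pi.sub_apply]
    unfold cor
    rw [dif_neg h, dif_neg h, dif_neg h, sub_zero]

theorem cor_nsmul (n : ℕ) (f : G → A) : cor ρ H H' (n • f) = n • cor ρ H H' f := by
  funext σ
  by_cases h : σ ∈ H
  · rw [Pi.smul_apply, cor_apply h, cor_apply h, Finset.smul_sum]
    exact Finset.sum_congr rfl fun c _ => map_nsmul _ _ _
  · rw [Pi.smul_apply]
    unfold cor
    rw [dif_neg h, dif_neg h, smul_zero]

end cor

end Run7.h375.SH
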