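import Pool.Agent.Run7.h375.SH.Kras

/-!
# The base change
-/

set_option autoImplicit false

namespace Run7.h375.SH

open Polynomial IntermediateField
open scoped Pointwise

variable {K Ω : Type*} [Field K] [Field Ω] [Algebra K Ω] [IsGalois K Ω]

set_option linter.unusedSectionVars false

theorem mem_fix_adjoin {θ : Ω} {σ : Gal(Ω/K)} : σ ∈ K⟮θ⟯.fixingSubgroup ↔ σ θ = θ := by
  constructor
  · intro h
    exact (IntermediateField.mem_fixingSubgroup_iff _ _).1 h θ (mem_adjoin_simple_self K θ)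
  · intro h
    rw [IntermediateField.mem_fixingSubgroup_iff]
    have h1 : K⟮θ⟯ ≤ fixedField (Subgroup.zpowers σ) := by
      rw [adjoin_simple_le_iff, mem_fixedField_iff]
      have h2 : Subgroup.zpowers σ ≤ MulAction.stabilizer Gal(Ω/K) θ := by
        rw [Subgroup.zpowers_le]
        exact h
      exact fun f hf => h2 hf
    intro x hx
    exact (mem_fixedField_iff _ _).1 (h1 hx) σ (Subgroup.mem_zpowers σ)

/-- The approximating polynomial. -/
noncomputable def hp (θ : Ω) (r π : K) : Polynomial K :=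
  C (1 + r)⁻¹ * minpoly K θ + C (1 - (1 + r)⁻¹) * (X ^ (minpoly K θ).natDegree - C π)

section poly

variable {θ : Ω} {r π : K}

theorem hp_coeff (i : ℕ) : (hp θ r π).coeff i = (1 + r)⁻¹ * (minpoly K θ).coeff i +
    (1 - (1 + r)⁻¹) * ((if i = (minpoly K θ).natDegree then 1 else 0) - if i = 0 then π else 0) := by
  unfold hp
  rw [coeff_add, coeff_C_mul, coeff_C_mul, coeff_sub, coeff_X_pow, coeff_C]

theorem hp_deg : (hp θ r π).natDegree ≤ (minpoly K θ).natDegree := by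
  rw [natDegree_le_iff_coeff_eq_zero]
  intro i hi
  rw [hp_coeff, coeff_eq_zero_of_natDegree_lt hi, if_neg hi.ne', if_neg (by omega)]
  ring

theorem hp_monic : (hp θ r π).Monic := by
  refine monic_of_natDegree_le_of_coeff_eq_one _ hp_deg ?_
  have h1 := (minpoly.natDegree_pos (integral (K := K) θ)).ne'
  rw [hp_coeff, (minpoly.monic (integral (K := K) θ)).coeff_natDegree, if_pos rfl, if_neg h1]
  ring

theorem hp_natDegree : (hp θ r π).natDegree = (minpoly K θ).natDegree := by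
  apply le_antisymm hp_deg
  refine le_natDegree_of_ne_zero ?_
  have h1 := (minpoly.natDegree_pos (integral (K := K) θ)).ne'
  rw [hp_coeff, (minpoly.monic (integral (K := K) θ)).coeff_natDegree, if_pos rfl, if_neg h1]
  ring_nf
  exact one_ne_zero

theorem hp_derivative (hr : 1 + r ≠ 0) : derivative (hp θ r π) ≠ 0 := by
  have h1 := (minpoly.natDegree_pos (integral (K := K) θ)).ne'
  set n := (minpoly K θ).natDegree with hn
  by_cases hn0 : (n : K) = 0
  · have h2 : derivative (hp θ r π) = C (1 + r)⁻¹ * derivative (minpoly K θ) := by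
      unfold hp
      rw [derivative_add, derivative_C_mul, derivative_C_mul, derivative_sub, derivative_C,
        derivative_X_pow, ← hn, hn0]
      simp
    rw [h2]
    refine mul_ne_zero (C_ne_zero.2 (inv_ne_zero hr)) ?_
    have h3 : (minpoly K θ).Separable := IsGalois.separable K θ
    intro h4
    rw [separable_def, h4, isCoprime_zero_right] at h3
    exact (minpoly.irreducible (integral (K := K) θ)).not_isUnit h3
  · intro h2
    have h3 := congrArg (fun q => coeff q (n - 1)) h2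
    simp only [coeff_derivative, coeff_zero] at h3
    rw [Nat.sub_add_cancel (Nat.pos_of_ne_zero h1)] at h3
    have h4 : (hp θ r π).coeff n = 1 := by
      have h5 := hp_monic (θ := θ) (r := r) (π := π)
      rw [Monic, leadingCoeff, hp_natDegree] at h5
      exact h5
    rw [h4, one_mul] at h3
    apply hn0
    have h5 : (((n - 1) + 1 : ℕ) : K) = (n : K) := by
      rw [Nat.sub_add_cancel (Nat.pos_of_ne_zero h1)]
    rw [← h5]
    push_cast
    exact h3

theorem minpoly_coeff_mem {A : ValuationSubring Ω} (hA : ∀ y ∈ conjs K θ, y ∈ A) (i : ℕ) :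
    algebraMap K Ω ((minpoly K θ).coeff i) ∈ A := by
  have h1 : (minpoly K θ).map (algebraMap K Ω) ∈ lifts (algebraMap A Ω) := by
    rw [minpoly_prod]
    refine prod_mem fun z hz => ?_
    have h5 : (X - C z : Polynomial Ω) = X + C (-z) := by rw [C_neg, sub_eq_add_neg]
    rw [h5]
    exact add_mem (X_mem_lifts _) (C_mem_lifts (algebraMap A Ω) (⟨-z, neg_mem (hA z hz)⟩ : A))
  rw [lifts_iff_coeff_lifts] at h1
  obtain ⟨w, hw⟩ := h1 i
  rw [← coeff_map, ← hw]
  exact w.2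

end poly

/-- **The base change.** -/
theorem exists_base [IsSepClosed Ω] {θ : Ω} (hN : (K⟮θ⟯.fixingSubgroup).Normal)
    (𝓑 : Set (ValuationSubring Ω)) (u : ValuationSubring Ω) (r π : K) (hr0 : r ≠ 0) (hπ0 : π ≠ 0)
    (hB1 : ∀ A ∈ 𝓑, ∀ y ∈ conjs K θ, y ∈ A)
    (hB2 : ∀ A ∈ 𝓑, algebraMap K Ω r * (dd K θ ^ (conjs K θ).card)⁻¹ ∈ A.nonunits)
    (hB3 : ∀ A ∈ 𝓑, algebraMap K Ω π ∈ A)
    (hu1 : ∀ y ∈ conjs K θ, y ∈ u) (hu2 : (dd K θ)⁻¹ ∈ u) (hu3 : algebraMap K Ω π ∈ u.nonunits)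
    (hu4 : ∀ c : K, algebraMap K Ω c ∈ u.nonunits → algebraMap K Ω c * (algebraMap K Ω π)⁻¹ ∈ u)
    (hu5 : (algebraMap K Ω (r * π))⁻¹ ∈ u.nonunits) :
    ∃ β : Ω, (∀ g : Gal(Ω/K), ∃ a ∈ K⟮β⟯.fixingSubgroup, ∃ b ∈ K⟮θ⟯.fixingSubgroup, g = a * b) ∧
      ∀ A ∈ 𝓑, ∀ σ : Gal(Ω/K), σ • A = A → σ ∈ K⟮β⟯.fixingSubgroup → σ ∈ K⟮θ⟯.fixingSubgroup := by
  classical
  set R := algebraMap K Ω r with hR
  set Pi' := algebraMap K Ω π with hPi
  have hR0 : R ≠ 0 := (_root_.map_ne_zero _).2 hr0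
  have hPi0 : Pi' ≠ 0 := (_root_.map_ne_zero _).2 hπ0
  rw [map_mul, ← hR, ← hPi] at hu5
  -- `1 / r` at `u`
  have hri : R⁻¹ ∈ u.nonunits := by
    have h1 : R⁻¹ = (R * Pi')⁻¹ * Pi' := by field_simp
    rw [h1]
    exact nonunit_mul hu5 (nonunit_mem hu3)
  obtain ⟨hs0, hs1⟩ := one_add_inv hri
  have h1R : 1 + R ≠ 0 := by
    have h1 : 1 + R = R * (1 + R⁻¹) := by field_simp; ring
    rw [h1]
    exact mul_ne_zero hR0 hs0
  have h1r : 1 + r ≠ 0 := by
    intro h
    apply h1R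
    rw [hR, ← map_one (algebraMap K Ω), ← map_add, h, map_zero]
  have hmap1 : algebraMap K Ω (1 + r)⁻¹ = (1 + R)⁻¹ := by
    rw [map_inv₀, map_add, map_one]
  have hmap2 : algebraMap K Ω (1 - (1 + r)⁻¹) = 1 - (1 + R)⁻¹ := by
    rw [map_sub, map_one, hmap1]
  have hcoeff : ∀ i, algebraMap K Ω ((hp θ r π).coeff i) =
      (1 + R)⁻¹ * algebraMap K Ω ((minpoly K θ).coeff i) +
      (1 - (1 + R)⁻¹) * ((if i = (minpoly K θ).natDegree then 1 else 0) - if i = 0 then Pi' else 0) := by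
    intro i
    rw [hp_coeff, map_add, map_mul, map_mul, hmap1, hmap2, map_sub]
    congr 3
    · split_ifs
      · exact map_one _
      · exact map_zero _
    · split_ifs
      · rfl
      · exact map_zero _
  have hn0 := (minpoly.natDegree_pos (integral (K := K) θ)).ne'
  -- at `u`
  have hePi' : (1 + R)⁻¹ * Pi'⁻¹ ∈ u.nonunits := by
    have h1 : (1 + R)⁻¹ * Pi'⁻¹ = (R * Pi')⁻¹ * (1 + R⁻¹)⁻¹ := by
      rw [← mul_inv, ← mul_inv]
      congr 1
      field_simp
      ring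
    rw [h1]
    exact nonunit_mul hu5 hs1
  have heu : (1 + R)⁻¹ ∈ u.nonunits := by
    have h1 : (1 + R)⁻¹ = ((1 + R)⁻¹ * Pi'⁻¹) * Pi' := by field_simp
    rw [h1]
    exact nonunit_mul hePi' (nonunit_mem hu3)
  have he1u : 1 - (1 + R)⁻¹ ∈ u := sub_mem (one_mem _) (nonunit_mem heu)
  set hΩ : Polynomial Ω := (hp θ r π).map (algebraMap K Ω) with hhΩ
  have hΩm : hΩ.Monic := hp_monic.map _
  have hΩd : hΩ.natDegree = (minpoly K θ).natDegree := by
    rw [hhΩ, natDegree_map, hp_natDegree]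
  have hΩc : ∀ i, i < hΩ.natDegree → hΩ.coeff i ∈ u.nonunits := by
    intro i hi
    rw [hΩd] at hi
    rw [hhΩ, coeff_map, hcoeff, if_neg hi.ne, zero_sub]
    refine add_mem (nonunit_mul heu (minpoly_coeff_mem hu1 i)) ?_
    split_ifs
    · have h1 : (1 - (1 + R)⁻¹) * -Pi' = Pi' * (-(1 - (1 + R)⁻¹)) := by ring
      rw [h1]
      exact nonunit_mul hu3 (neg_mem he1u)
    · rw [neg_zero, mul_zero, nonunit_iff]
      exact Or.inl rfl
  -- irreducibility over `K(θ)`
  have hirr : Irreducible ((hp θ r π).map (algebraMap K K⟮θ⟯)) := by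
    have hmon : ((hp θ r π).map (algebraMap K K⟮θ⟯)).Monic := hp_monic.map _
    rw [hmon.irreducible_iff_natDegree]
    refine ⟨?_, ?_⟩
    · intro h
      have h1 := congrArg natDegree h
      rw [natDegree_map, hp_natDegree, natDegree_one] at h1
      exact hn0 h1
    · intro f g hf hg hfg
      by_contra hcon
      push Not at hcon
      have key : ∀ q : Polynomial K⟮θ⟯, q.Monic → q.natDegree ≠ 0 →
          q ∣ (hp θ r π).map (algebraMap K K⟮θ⟯) → ((q.coeff 0 : K⟮θ⟯) : Ω) * Pi'⁻¹ ∈ u := by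
        intro q hq hq0 hqd
        refine unram hu1 hu2 hu4 (q.coeff 0).2 fun σ => ?_
        have h1 : σ ((q.coeff 0 : K⟮θ⟯) : Ω) =
            ((q.map (algebraMap K⟮θ⟯ Ω)).map (σ : Ω →+* Ω)).coeff 0 := by
          rw [coeff_map, coeff_map]
          rfl
        rw [h1]
        refine factor_coeff hΩm hΩc ((hq.map _).map _) ?_ ?_
        · rw [natDegree_map, natDegree_map]
          exact hq0
        · have h2 : hΩ = (((hp θ r π).map (algebraMap K K⟮θ⟯)).map
              (algebraMap K⟮θ⟯ Ω)).map (σ : Ω →+* Ω) := by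
            rw [Polynomial.map_map, Polynomial.map_map, hhΩ]
            congr 1
            ext x
            exact (σ.commutes x).symm
          rw [h2]
          exact Polynomial.map_dvd _ (Polynomial.map_dvd _ hqd)
      have h1 := key f hf hcon.1 ⟨g, hfg.symm⟩
      have h2 := key g hg hcon.2 ⟨f, by rw [mul_comm]; exact hfg.symm⟩
      have h3 : algebraMap K Ω ((hp θ r π).coeff 0) =
          ((f.coeff 0 : K⟮θ⟯) : Ω) * ((g.coeff 0 : K⟮θ⟯) : Ω) := by
        have h4 := congrArg (fun q => (coeff q 0 : K⟮θ⟯)) hfg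
        simp only [mul_coeff_zero, coeff_map] at h4
        have h5 := congrArg (algebraMap K⟮θ⟯ Ω) h4
        rw [map_mul] at h5
        exact h5.symm
      have h4 := mul_mem h1 h2
      rw [hcoeff, if_neg hn0.symm, if_pos rfl, zero_sub] at h3
      set g0 := algebraMap K Ω ((minpoly K θ).coeff 0) with hg0
      have hg0u : g0 ∈ u := minpoly_coeff_mem hu1 0
      have h5 : (((f.coeff 0 : K⟮θ⟯) : Ω) * Pi'⁻¹ * (((g.coeff 0 : K⟮θ⟯) : Ω) * Pi'⁻¹)) =
          (((1 + R)⁻¹ * Pi'⁻¹) * g0 + (1 + R)⁻¹ - 1) * Pi'⁻¹ := by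
        have h6 : (((f.coeff 0 : K⟮θ⟯) : Ω) * Pi'⁻¹ * (((g.coeff 0 : K⟮θ⟯) : Ω) * Pi'⁻¹)) =
            (((f.coeff 0 : K⟮θ⟯) : Ω) * ((g.coeff 0 : K⟮θ⟯) : Ω)) * Pi'⁻¹ * Pi'⁻¹ := by ring
        rw [h6, ← h3]
        field_simp
        ring
      rw [h5] at h4
      have h6 := nonunit_mul hu3 h4
      have h7 : Pi' * ((((1 + R)⁻¹ * Pi'⁻¹) * g0 + (1 + R)⁻¹ - 1) * Pi'⁻¹) =
          ((1 + R)⁻¹ * Pi'⁻¹) * g0 + (1 + R)⁻¹ - 1 := by
        field_simp
      rw [h7] at h6
      apply one_nonunit (A := u)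
      have h8 : (1 : Ω) = (((1 + R)⁻¹ * Pi'⁻¹) * g0 + (1 + R)⁻¹) -
          (((1 + R)⁻¹ * Pi'⁻¹) * g0 + (1 + R)⁻¹ - 1) := by ring
      rw [h8]
      exact sub_mem (add_mem (nonunit_mul hePi' hg0u) heu) h6
  have hirrK : Irreducible (hp θ r π) := hp_monic.irreducible_of_irreducible_map _ _ hirr
  have hsep : (hp θ r π).Separable :=
    (separable_iff_derivative_ne_zero hirrK).2 (hp_derivative h1r)
  obtain ⟨β, hβ⟩ := IsSepClosed.exists_aeval_eq_zero Ω (hp θ r π) (by
    intro h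
    have h1 := natDegree_eq_of_degree_eq_some h
    rw [hp_natDegree] at h1
    exact hn0 h1) hsep
  refine ⟨β, fun g => ?_, fun A hA σ hσA hσβ => ?_⟩
  · -- transitivity
    have hβN : ∀ x : Ω, aeval x (hp θ r π) = 0 →
        (hp θ r π).map (algebraMap K K⟮θ⟯) = minpoly K⟮θ⟯ x := by
      intro x hx
      refine minpoly.eq_of_irreducible_of_monic hirr ?_ (hp_monic.map _)
      rw [aeval_map_algebraMap]
      exact hx
    have h1 : aeval (g⁻¹ β) (hp θ r π) = 0 := by
      have h2 := aeval_algHom_apply ((g⁻¹ : Gal(Ω/K)) : Ω →ₐ[K] Ω) β (hp θ r π)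
      rw [hβ, map_zero] at h2
      exact h2
    have h2 : minpoly K⟮θ⟯ (g⁻¹ β) = minpoly K⟮θ⟯ β := by
      rw [← hβN _ hβ, ← hβN _ h1]
    obtain ⟨ν, hν⟩ := (Normal.minpoly_eq_iff_mem_orbit Ω).1 h2
    let ν' : Gal(Ω/K) := ν.restrictScalars K
    have hν' : ν' β = g⁻¹ β := hν
    have hνN : ν' ∈ K⟮θ⟯.fixingSubgroup := by
      rw [IntermediateField.mem_fixingSubgroup_iff]
      intro x hx
      exact ν.commutes (⟨x, hx⟩ : K⟮θ⟯)
    refine ⟨g * ν', ?_, ν'⁻¹, inv_mem hνN, by group⟩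
    rw [mem_fix_adjoin]
    show g (ν' β) = β
    rw [hν', ← AlgEquiv.mul_apply, mul_inv_cancel, AlgEquiv.one_apply]
  · have hAc := hB1 A hA
    have hdA : dd K θ ∈ A := dd_mem hAc
    have hRA : R ∈ A.nonunits := by
      have h1 : R = (R * (dd K θ ^ (conjs K θ).card)⁻¹) * dd K θ ^ (conjs K θ).card := by
        have h2 : dd K θ ^ (conjs K θ).card ≠ 0 := pow_ne_zero _ dd_ne
        field_simp
      rw [h1]
      exact nonunit_mul (hB2 A hA) (pow_mem hdA _)
    have heA : (1 + R)⁻¹ ∈ A := (one_add_inv hRA).2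
    have hβA : β ∈ A := by
      refine mem_of_monic hΩm (fun i => ?_) (by rw [hhΩ, eval_map]; exact hβ)
      rw [hhΩ, coeff_map, hcoeff]
      refine add_mem (mul_mem heA (minpoly_coeff_mem hAc i))
        (mul_mem (sub_mem (one_mem _) heA) (sub_mem ?_ ?_))
      · split_ifs
        · exact one_mem _
        · exact zero_mem _
      · split_ifs
        · exact hB3 A hA
        · exact zero_mem _
    have hprod : ∏ y ∈ conjs K θ, (β - y) = R * (Pi' - β ^ (minpoly K θ).natDegree) := by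
      have h1 : ∏ y ∈ conjs K θ, (β - y) = aeval β (minpoly K θ) := by
        rw [aeval_def, ← eval_map, minpoly_prod, eval_prod]
        simp
      rw [h1]
      have h2 : (1 + R)⁻¹ * aeval β (minpoly K θ) +
          (1 - (1 + R)⁻¹) * (β ^ (minpoly K θ).natDegree - Pi') = 0 := by
        rw [← hβ]
        unfold hp
        rw [map_add, map_mul, map_mul, aeval_C, aeval_C, hmap1, hmap2, map_sub, map_pow, aeval_X,
          aeval_C]
      have h3 : aeval β (minpoly K θ) + R * (β ^ (minpoly K θ).natDegree - Pi') = 0 := by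
        have h4 : (1 + R) * ((1 + R)⁻¹ * aeval β (minpoly K θ) +
          (1 - (1 + R)⁻¹) * (β ^ (minpoly K θ).natDegree - Pi')) = 0 := by rw [h2, mul_zero]
        rw [← h4]
        field_simp
        ring
      linear_combination h3
    obtain ⟨y, hy, hσy⟩ := krasner hAc (sub_mem (hB3 A hA) (pow_mem hβA _)) hprod (hB2 A hA) hR0
      hσA (mem_fix_adjoin.1 hσβ)
    obtain ⟨τ, rfl⟩ := mem_conjs.1 hy
    have h1 : τ⁻¹ * σ * τ ∈ K⟮θ⟯.fixingSubgroup := by
      rw [mem_fix_adjoin]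
      show τ⁻¹ (σ (τ θ)) = θ
      rw [hσy, ← AlgEquiv.mul_apply, inv_mul_cancel, AlgEquiv.one_apply]
    have h2 := hN.conj_mem _ h1 τ
    have h3 : τ * (τ⁻¹ * σ * τ) * τ⁻¹ = σ := by group
    rwa [h3] at h2

end Run7.h375.SH
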