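import Pool.Agent.Run7.h375.SH.Ext

/-!
# Rational function fields over finite fields
-/

set_option autoImplicit false

namespace Run7.h375.SH

open Polynomial IntermediateField
open scoped Pointwise

section ff

variable {k K Ω : Type*} [Field k] [Finite k] [Field K] [Algebra (Polynomial k) K]
  [IsFractionRing (Polynomial k) K] [Field Ω] [Algebra K Ω]

set_option linter.unusedSectionVars false

/-- A polynomial as an element of `Ω`. -/
noncomputable def ev (k K Ω : Type*) [Field k] [Field K] [Algebra (Polynomial k) K]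
    [Field Ω] [Algebra K Ω] : Polynomial k →+* Ω :=
  (algebraMap K Ω).comp (algebraMap (Polynomial k) K)

omit [Finite k] in
theorem ev_inj : Function.Injective (ev k K Ω) :=
  (algebraMap K Ω).injective.comp (IsFractionRing.injective (Polynomial k) K)

omit [Finite k] in
theorem ev_ne {f : Polynomial k} (hf : f ≠ 0) : ev k K Ω f ≠ 0 :=
  (map_ne_zero_iff _ ev_inj).2 hf

variable {A : ValuationSubring Ω}

theorem const_mem (c : k) : ev k K Ω (C c) ∈ A := by
  classical
  let _ := Fintype.ofFinite k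
  have h1 : 1 < Fintype.card k := Fintype.one_lt_card
  refine mem_of_monic (A := A) (h := X ^ Fintype.card k + C (-1) * X) ?_ (fun i => ?_) ?_
  · refine monic_X_pow_add ?_
    refine (degree_C_mul_X_le (-1 : Ω)).trans_lt ?_
    exact_mod_cast h1
  · rw [coeff_add, coeff_X_pow, coeff_C_mul, coeff_X]
    refine add_mem ?_ (mul_mem (neg_mem (one_mem _)) ?_)
    · split_ifs
      · exact one_mem _
      · exact zero_mem _
    · split_ifs
      · exact one_mem _
      · exact zero_mem _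
  · rw [eval_add, eval_pow, eval_X, eval_mul, eval_C, eval_X, ← map_pow, ← C_pow,
      FiniteField.pow_card]
    ring

theorem ev_mem (ht : ev k K Ω X ∈ A) (f : Polynomial k) : ev k K Ω f ∈ A := by
  induction f using Polynomial.induction_on' with
  | add p q hp hq =>
    rw [map_add]
    exact add_mem hp hq
  | monomial n a =>
    rw [← C_mul_X_pow_eq_monomial, map_mul, map_pow]
    exact mul_mem (const_mem a) (pow_mem ht n)

/-- Away from infinity: if `⟦q⟧` and `⟦f⟧` are not units and `q` is irreducible then `q ∣ f`. -/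
theorem dvd_of_nonunit (ht : ev k K Ω X ∈ A) {q f : Polynomial k} (hq : Irreducible q)
    (h1 : ev k K Ω q ∈ A.nonunits) (h2 : ev k K Ω f ∈ A.nonunits) : q ∣ f := by
  by_contra h
  obtain ⟨a, b, hab⟩ := (hq.coprime_iff_not_dvd).2 h
  apply one_nonunit (A := A)
  rw [← map_one (ev k K Ω), ← hab, map_add, map_mul, map_mul, mul_comm, mul_comm (ev k K Ω b)]
  exact add_mem (nonunit_mul h1 (ev_mem ht a)) (nonunit_mul h2 (ev_mem ht b))

theorem inv_mem_of {x : Ω} (h : x ∉ A.nonunits) : x⁻¹ ∈ A := (inv_of_not h).2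

/-- At infinity. -/
theorem inf_aux (ht : ev k K Ω X ∉ A) {f : Polynomial k} (hf : f ≠ 0) :
    ev k K Ω f * ((ev k K Ω X)⁻¹) ^ f.natDegree ∈ A ∧
      (ev k K Ω f * ((ev k K Ω X)⁻¹) ^ f.natDegree)⁻¹ ∈ A := by
  have hX0 : ev k K Ω X ≠ 0 := ev_ne X_ne_zero
  have hT : (ev k K Ω X)⁻¹ ∈ A.nonunits := by
    rw [nonunit_iff]
    right
    rwa [inv_inv]
  set T := (ev k K Ω X)⁻¹ with hTdef
  have h1 : ev k K Ω f * T ^ f.natDegree = ev k K Ω (C f.leadingCoeff) +
      ∑ i ∈ Finset.range f.natDegree, ev k K Ω (C (f.coeff i)) * T ^ (f.natDegree - i) := by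
    have h2 : ev k K Ω f = ∑ i ∈ Finset.range (f.natDegree + 1),
        ev k K Ω (C (f.coeff i)) * ev k K Ω X ^ i := by
      conv_lhs => rw [f.as_sum_range_C_mul_X_pow]
      rw [map_sum]
      exact Finset.sum_congr rfl fun i _ => by rw [map_mul, map_pow]
    rw [h2, Finset.sum_range_succ, add_mul, Finset.sum_mul, add_comm]
    congr 1
    · rw [mul_assoc, ← mul_pow, hTdef, mul_inv_cancel₀ hX0, one_pow, mul_one]
      rfl
    · refine Finset.sum_congr rfl fun i hi => ?_
      have hi' : i ≤ f.natDegree := (Finset.mem_range.1 hi).le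
      have h3 : T ^ f.natDegree = T ^ i * T ^ (f.natDegree - i) := by
        rw [← pow_add, Nat.add_sub_cancel' hi']
      rw [h3, mul_assoc, ← mul_assoc (ev k K Ω X ^ i), ← mul_pow, hTdef, mul_inv_cancel₀ hX0,
        one_pow, one_mul]
  have h2 : ∑ i ∈ Finset.range f.natDegree, ev k K Ω (C (f.coeff i)) * T ^ (f.natDegree - i) ∈
      A.nonunits := by
    refine sum_mem fun i hi => ?_
    rw [mul_comm]
    have h3 : T ^ (f.natDegree - i) ∈ A.nonunits := by
      have h4 : f.natDegree - i ≠ 0 := by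
        have := Finset.mem_range.1 hi
        omega
      obtain ⟨j, hj⟩ := Nat.exists_eq_succ_of_ne_zero h4
      rw [hj, pow_succ, mul_comm]
      exact nonunit_mul hT (pow_mem (nonunit_mem hT) j)
    exact nonunit_mul h3 (const_mem _)
  refine ⟨by rw [h1]; exact add_mem (const_mem _) (nonunit_mem h2), inv_mem_of fun h3 => ?_⟩
  rw [h1] at h3
  apply one_nonunit (A := A)
  have h4 : ev k K Ω (C f.leadingCoeff) ∈ A.nonunits := by
    have h5 := sub_mem h3 h2
    rwa [add_sub_cancel_right] at h5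
  have h5 : (1 : Ω) = ev k K Ω (C f.leadingCoeff) * ev k K Ω (C f.leadingCoeff⁻¹) := by
    rw [← map_mul, ← C_mul, mul_inv_cancel₀ (leadingCoeff_ne_zero.2 hf), C_1, map_one]
  rw [h5]
  exact nonunit_mul h4 (const_mem _)

theorem inf_le (ht : ev k K Ω X ∉ A) {f g : Polynomial k} (hg : g ≠ 0)
    (h : f.natDegree ≤ g.natDegree) : ev k K Ω f * (ev k K Ω g)⁻¹ ∈ A := by
  by_cases hf : f = 0
  · rw [hf, map_zero, zero_mul]
    exact zero_mem _
  have hX0 : ev k K Ω X ≠ 0 := ev_ne X_ne_zero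
  have hg0 : ev k K Ω g ≠ 0 := ev_ne hg
  have hT : (ev k K Ω X)⁻¹ ∈ A := by
    apply inv_mem_of
    exact fun h => ht (nonunit_mem h)
  have h1 := (inf_aux ht hf).1
  have h2 := (inf_aux ht hg).2
  have h3 := mul_mem (mul_mem h1 h2) (pow_mem hT (g.natDegree - f.natDegree))
  have h4 : ev k K Ω f * (ev k K Ω X)⁻¹ ^ f.natDegree *
      (ev k K Ω g * (ev k K Ω X)⁻¹ ^ g.natDegree)⁻¹ * (ev k K Ω X)⁻¹ ^ (g.natDegree - f.natDegree) =
      ev k K Ω f * (ev k K Ω g)⁻¹ := by
    have h5 : ev k K Ω X ^ g.natDegree = ev k K Ω X ^ f.natDegree *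
        ev k K Ω X ^ (g.natDegree - f.natDegree) := by
      rw [← pow_add, Nat.add_sub_cancel' h]
    rw [mul_inv, inv_pow, inv_pow, inv_pow, inv_inv, h5]
    field_simp
  rwa [h4] at h3

theorem inf_lt (ht : ev k K Ω X ∉ A) {f g : Polynomial k} (hg : g ≠ 0)
    (h : f.natDegree < g.natDegree) : ev k K Ω f * (ev k K Ω g)⁻¹ ∈ A.nonunits := by
  have hX0 : ev k K Ω X ≠ 0 := ev_ne X_ne_zero
  have hT : (ev k K Ω X)⁻¹ ∈ A.nonunits := by
    rw [nonunit_iff]
    right
    rwa [inv_inv]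
  by_cases hf : f = 0
  · rw [hf, map_zero, zero_mul, nonunit_iff]
    exact Or.inl rfl
  have h1 : (f * X).natDegree ≤ g.natDegree := by
    rw [natDegree_mul_X hf]
    exact h
  have h2 := nonunit_mul hT (inf_le ht hg h1)
  have h3 : (ev k K Ω X)⁻¹ * (ev k K Ω (f * X) * (ev k K Ω g)⁻¹) =
      ev k K Ω f * (ev k K Ω g)⁻¹ := by
    rw [map_mul]
    field_simp
  rwa [h3] at h2

omit [Finite k] in
theorem exists_irr {f : Polynomial k} (hf : f ≠ 0) : ∃ q : Polynomial k, Irreducible q ∧ ¬ q ∣ f := by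
  have h1 : X * f + 1 ≠ 0 := by
    intro h
    have h2 := congrArg (fun p => coeff p 0) h
    simp at h2
  have h2 : ¬ IsUnit (X * f + 1) := by
    intro h
    have h3 := natDegree_eq_zero_of_isUnit h
    have h4 : (X * f + 1).natDegree = f.natDegree + 1 := by
      rw [← C_1, natDegree_add_C, natDegree_X_mul hf]
    omega
  obtain ⟨q, hq, hqd⟩ := WfDvdMonoid.exists_irreducible_factor h2 h1
  refine ⟨q, hq, fun h => hq.not_isUnit ?_⟩
  have h3 : q ∣ X * f := h.mul_left X
  exact isUnit_of_dvd_one ((dvd_add_right h3).1 hqd)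

/-- A place over an irreducible polynomial. -/
theorem exists_place {q : Polynomial k} (hq : Irreducible q) :
    ∃ u : ValuationSubring Ω, ev k K Ω q ∈ u.nonunits ∧ ev k K Ω X ∈ u := by
  let R := (ev k K Ω).range
  let I : Ideal R := Ideal.span {⟨ev k K Ω q, ⟨q, rfl⟩⟩}
  have hI : I ≠ ⊤ := by
    intro h
    rw [Ideal.span_singleton_eq_top] at h
    obtain ⟨⟨b, hb⟩, hb2⟩ := h.exists_right_inv
    obtain ⟨g, rfl⟩ := hb
    have h1 := congrArg Subtype.val hb2
    have h2 : ev k K Ω (q * g) = ev k K Ω 1 := by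
      rw [map_mul, map_one]
      exact h1
    exact hq.not_isUnit (IsUnit.of_mul_eq_one _ (ev_inj h2))
  obtain ⟨u, hu1, hu2⟩ := Ideal.image_subset_nonunits_valuationSubring I hI
  refine ⟨u, hu2 ⟨_, Ideal.subset_span rfl, rfl⟩, hu1 ⟨X, rfl⟩⟩

end ff

end Run7.h375.SH
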