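import Pool.Agent.Run7.h375.SH.FF

/-!
# The base change over rational function fields
-/

set_option autoImplicit false

namespace Run7.h375.SH

open Polynomial IntermediateField
open scoped Pointwise

section ff

variable {k K Ω : Type*} [Field k] [Finite k] [Field K] [Algebra (Polynomial k) K]
  [IsFractionRing (Polynomial k) K] [Field Ω] [Algebra K Ω] [IsGalois K Ω]

set_option linter.unusedSectionVars false

/-- `σ` is in the inertia group of `A`. -/
def InInertia (A : ValuationSubring Ω) (σ : Gal(Ω/K)) : Prop :=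
  σ • A = A ∧ ∀ x ∈ A, σ x - x ∈ A.nonunits

/-- Scaling of the conjugates by an element of `K`. -/
theorem conjs_scale (θ : Ω) {c : K} :
    ∀ y, y ∈ conjs K (θ * algebraMap K Ω c) ↔ ∃ x ∈ conjs K θ, y = x * algebraMap K Ω c := by
  intro y
  rw [mem_conjs]
  constructor
  · rintro ⟨σ, rfl⟩
    exact ⟨σ θ, mem_conjs.2 ⟨σ, rfl⟩, by rw [map_mul, σ.commutes]⟩
  · rintro ⟨x, hx, rfl⟩
    obtain ⟨σ, rfl⟩ := mem_conjs.1 hx
    exact ⟨σ, by rw [map_mul, σ.commutes]⟩

theorem dd_scale (θ : Ω) {c : K} (hc : c ≠ 0) :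
    dd K (θ * algebraMap K Ω c) = dd K θ * algebraMap K Ω c ^ (conjs K θ).offDiag.card := by
  classical
  have hc' : algebraMap K Ω c ≠ 0 := (_root_.map_ne_zero _).2 hc
  have h1 : dd K (θ * algebraMap K Ω c) =
      ∏ p ∈ (conjs K (θ * algebraMap K Ω c)).offDiag, (p.1 - p.2) := by
    unfold dd
    congr!
  have h2 : dd K θ = ∏ p ∈ (conjs K θ).offDiag, (p.1 - p.2) := by
    unfold dd
    congr!
  rw [h1, h2, ← Finset.prod_const, ← Finset.prod_mul_distrib]
  symm
  refine Finset.prod_bij (fun p _ => (p.1 * algebraMap K Ω c, p.2 * algebraMap K Ω c)) ?_ ?_ ?_ ?_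
  · intro p hp
    obtain ⟨h3, h4, h5⟩ := Finset.mem_offDiag.1 hp
    exact Finset.mem_offDiag.2 ⟨(conjs_scale θ _).2 ⟨_, h3, rfl⟩, (conjs_scale θ _).2 ⟨_, h4, rfl⟩,
      fun h => h5 (mul_right_cancel₀ hc' h)⟩
  · intro p _ q _ h
    have h3 := (Prod.mk.injEq _ _ _ _).mp h
    exact Prod.ext (mul_right_cancel₀ hc' h3.1) (mul_right_cancel₀ hc' h3.2)
  · intro p hp
    obtain ⟨h3, h4, h5⟩ := Finset.mem_offDiag.1 hp
    obtain ⟨x, hx, hx2⟩ := (conjs_scale θ _).1 h3
    obtain ⟨y, hy, hy2⟩ := (conjs_scale θ _).1 h4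
    refine ⟨(x, y), Finset.mem_offDiag.2 ⟨hx, hy, fun h => h5 ?_⟩, ?_⟩
    · rw [hx2, hy2]
      show x * _ = y * _
      rw [show x = y from h]
    · exact Prod.ext hx2.symm hy2.symm
  · intro p _
    ring

theorem fix_of_scale {θ : Ω} {c : K} (hc : c ≠ 0) {σ : Gal(Ω/K)} :
    σ ∈ K⟮θ * algebraMap K Ω c⟯.fixingSubgroup ↔ σ ∈ K⟮θ⟯.fixingSubgroup := by
  have hc' : algebraMap K Ω c ≠ 0 := (_root_.map_ne_zero _).2 hc
  rw [mem_fix_adjoin, mem_fix_adjoin, map_mul, σ.commutes]
  exact ⟨fun h => mul_right_cancel₀ hc' h, fun h => by rw [h]⟩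

theorem int_mem {A : ValuationSubring Ω} (ht : ev k K Ω X ∈ A) {P : Polynomial (Polynomial k)}
    (hP : P.Monic) {x : Ω} (hx : (P.map (ev k K Ω)).eval x = 0) : x ∈ A := by
  refine mem_of_monic (hP.map _) (fun i => ?_) hx
  rw [coeff_map]
  exact ev_mem ht _

/-- **The base change over a rational function field.** -/
theorem ff_base [IsSepClosed Ω] (N : IntermediateField K Ω) [FiniteDimensional K N]
    (hN : N.fixingSubgroup.Normal) {M : Polynomial k} (hM : M ≠ 0) :
    ∃ β : Ω, (∀ g : Gal(Ω/K), ∃ a ∈ K⟮β⟯.fixingSubgroup, ∃ b ∈ N.fixingSubgroup, g = a * b) ∧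
      (∀ A : ValuationSubring Ω, (ev k K Ω X ∉ A ∨ ev k K Ω M ∈ A.nonunits) → ∀ σ : Gal(Ω/K),
        σ • A = A → σ ∈ K⟮β⟯.fixingSubgroup → σ ∈ N.fixingSubgroup) ∧
      (∀ A : ValuationSubring Ω, ∀ σ : Gal(Ω/K), InInertia A σ → σ ∈ K⟮β⟯.fixingSubgroup →
        σ ∈ N.fixingSubgroup) := by
  classical
  -- an integral generator
  obtain ⟨θ, P, hNθ, hP, hPθ⟩ : ∃ (θ : Ω) (P : Polynomial (Polynomial k)),
      (∀ σ : Gal(Ω/K), σ ∈ N.fixingSubgroup ↔ σ ∈ K⟮θ⟯.fixingSubgroup) ∧ P.Monic ∧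
        (P.map (ev k K Ω)).eval θ = 0 := by
    have hsepN : Algebra.IsSeparable K N := inferInstance
    let _ : Algebra (Polynomial k) N := ((algebraMap K N).comp (algebraMap (Polynomial k) K)).toAlgebra
    have : IsScalarTower (Polynomial k) K N := IsScalarTower.of_algebraMap_eq fun x => rfl
    obtain ⟨α, hα⟩ := Field.exists_primitive_element K N
    have halg : IsAlgebraic (Polynomial k) (α : N) := by
      have h1 : IsAlgebraic K (α : N) := Algebra.IsAlgebraic.isAlgebraic α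
      exact (IsFractionRing.isAlgebraic_iff (Polynomial k) K N).2 h1
    obtain ⟨y, hy0, hyi⟩ := halg.exists_integral_multiple
    obtain ⟨P, hP, hPα⟩ := hyi
    have hy' : algebraMap (Polynomial k) K y ≠ 0 :=
      (map_ne_zero_iff _ (IsFractionRing.injective (Polynomial k) K)).2 hy0
    refine ⟨(α : Ω) * algebraMap K Ω (algebraMap (Polynomial k) K y), P, fun σ => ?_, hP, ?_⟩
    · rw [fix_of_scale hy', mem_fix_adjoin]
      constructor
      · intro h
        exact (IntermediateField.mem_fixingSubgroup_iff _ _).1 h α α.2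
      · intro h
        rw [IntermediateField.mem_fixingSubgroup_iff]
        intro x hx
        have h2 : (⟨x, hx⟩ : N) ∈ IntermediateField.adjoin K {α} := by
          rw [hα]
          exact IntermediateField.mem_top
        obtain ⟨r, s, hrs⟩ := (IntermediateField.mem_adjoin_simple_iff K _).1 h2
        have h3 : x = aeval (α : Ω) r / aeval (α : Ω) s := by
          have h4 := congrArg N.val hrs
          rw [map_div₀, ← aeval_algHom_apply, ← aeval_algHom_apply] at h4
          exact h4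
        have h4 : ∀ q : Polynomial K, σ (aeval (α : Ω) q) = aeval (α : Ω) q := by
          intro q
          have h5 := aeval_algHom_apply (σ : Ω →ₐ[K] Ω) (α : Ω) q
          have h6 : (σ : Ω →ₐ[K] Ω) (α : Ω) = α := h
          rw [h6] at h5
          exact h5.symm
        rw [h3, map_div₀, h4, h4]
    · rw [eval_map]
      have h1 := congrArg (algebraMap N Ω) hPα
      rw [map_zero, hom_eval₂] at h1
      rw [← h1]
      congr 1
      · have h2 : (y • α : N) = algebraMap (Polynomial k) N y * α := Algebra.smul_def y α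
        rw [h2, map_mul, mul_comm]
        rfl
  have hN' : (K⟮θ⟯.fixingSubgroup).Normal := by
    have h1 : K⟮θ⟯.fixingSubgroup = N.fixingSubgroup := by
      ext σ
      exact (hNθ σ).symm
    rw [h1]
    exact hN
  have hconjP : ∀ y ∈ conjs K θ, (P.map (ev k K Ω)).eval y = 0 := by
    intro y hy
    obtain ⟨σ, rfl⟩ := mem_conjs.1 hy
    have h1 := congrArg σ hPθ
    rw [map_zero, eval_map] at h1
    rw [eval_map, ← h1]
    have h2 : σ (eval₂ (ev k K Ω) θ P) = eval₂ (((σ : Ω →+* Ω)).comp (ev k K Ω)) ((σ : Ω →+* Ω) θ) P :=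
      hom_eval₂ P (ev k K Ω) (σ : Ω →+* Ω) θ
    rw [h2]
    congr 1
    ext x
    · exact (σ.commutes _).symm
    · exact (σ.commutes _).symm
  -- the discriminant
  obtain ⟨d, hd0, hd⟩ : ∃ d : Polynomial k, d ≠ 0 ∧ ev k K Ω d = dd K θ := by
    obtain ⟨δ, hδ0, hδ⟩ := exists_dd (K := K) (θ := θ)
    have h1 : IsIntegral (Polynomial k) δ := by
      let _ : Algebra (Polynomial k) Ω := (ev k K Ω).toAlgebra
      have : IsScalarTower (Polynomial k) K Ω := IsScalarTower.of_algebraMap_eq fun x => rfl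
      rw [← isIntegral_algebraMap_iff (algebraMap K Ω).injective, hδ]
      unfold dd
      refine IsIntegral.prod _ fun p hp => ?_
      have hp' := Finset.mem_offDiag.1 (by convert hp)
      have h2 : ∀ y ∈ conjs K θ, IsIntegral (Polynomial k) y := fun y hy => ⟨P, hP, by
        rw [← eval_map]
        exact hconjP y hy⟩
      exact (h2 _ hp'.1).sub (h2 _ hp'.2.1)
    obtain ⟨d, rfl⟩ := (IsIntegrallyClosed.isIntegral_iff (R := Polynomial k) (K := K)).1 h1
    refine ⟨d, ?_, hδ⟩
    rintro rfl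
    exact hδ0 (map_zero _)
  have hMd : M * d ≠ 0 := mul_ne_zero hM hd0
  -- two auxiliary primes
  obtain ⟨q, hq, hqM⟩ := exists_irr hMd
  obtain ⟨s, hs, hsM⟩ := exists_irr (mul_ne_zero hMd hq.ne_zero)
  have hsMd : ¬ s ∣ M * d := fun h => hsM (h.mul_right q)
  have hsq : ¬ s ∣ q := fun h => hsM (h.mul_left (M * d))
  have hsdeg : 1 ≤ s.natDegree := hs.natDegree_pos
  have hqdeg : 1 ≤ q.natDegree := hq.natDegree_pos
  have hs0 := hs.ne_zero
  have hq0 := hq.ne_zero
  set n := (conjs K θ).card with hn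
  set E := (conjs K θ).offDiag.card with hE
  -- the exponents
  let B : ℕ := ∑ i ∈ Finset.range (P.natDegree + 1), (P.coeff i).natDegree
  have hBi : ∀ i, (P.coeff i).natDegree ≤ B := by
    intro i
    by_cases hi : i ∈ Finset.range (P.natDegree + 1)
    · exact Finset.single_le_sum (f := fun i => (P.coeff i).natDegree) (fun _ _ => Nat.zero_le _) hi
    · rw [Finset.mem_range, not_lt] at hi
      rw [coeff_eq_zero_of_natDegree_lt hi, natDegree_zero]
      exact Nat.zero_le _
  set es := ev k K Ω s with hes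
  set eq := ev k K Ω q with heq
  have hes0 : es ≠ 0 := ev_ne hs0
  have heq0 : eq ≠ 0 := ev_ne hq0
  let c : K := (algebraMap (Polynomial k) K s ^ B)⁻¹
  have hc0 : c ≠ 0 := inv_ne_zero (pow_ne_zero _
    ((map_ne_zero_iff _ (IsFractionRing.injective (Polynomial k) K)).2 hs0))
  have hcΩ : algebraMap K Ω c = (es ^ B)⁻¹ := by
    show algebraMap K Ω (algebraMap (Polynomial k) K s ^ B)⁻¹ = _
    rw [map_inv₀, map_pow]
    rfl
  let F : Polynomial k := d * M ^ (n + 1) * s ^ (B * E * n)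
  let D : ℕ := F.natDegree + 2
  let r : K := algebraMap (Polynomial k) K ((M * d) ^ (n + 1)) *
    (algebraMap (Polynomial k) K (q ^ D))⁻¹
  let π : K := algebraMap (Polynomial k) K q * (algebraMap (Polynomial k) K (s ^ q.natDegree))⁻¹
  have hrΩ : algebraMap K Ω r = ev k K Ω ((M * d) ^ (n + 1)) * (eq ^ D)⁻¹ := by
    show algebraMap K Ω (_ * _) = _
    rw [map_mul, map_inv₀, heq, ← map_pow]
    rfl
  have hπΩ : algebraMap K Ω π = eq * (es ^ q.natDegree)⁻¹ := by
    show algebraMap K Ω (_ * _) = _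
    rw [map_mul, map_inv₀, hes, ← map_pow]
    rfl
  have hr0 : r ≠ 0 := by
    intro h
    have h1 := hrΩ
    rw [h, map_zero] at h1
    exact mul_ne_zero (ev_ne (pow_ne_zero _ hMd)) (inv_ne_zero (pow_ne_zero _ heq0)) h1.symm
  have hπ0 : π ≠ 0 := by
    intro h
    have h1 := hπΩ
    rw [h, map_zero] at h1
    exact mul_ne_zero heq0 (inv_ne_zero (pow_ne_zero _ hes0)) h1.symm
  -- the conjugates of the scaled generator
  have hdd : dd K (θ * algebraMap K Ω c) = dd K θ * ((es ^ B)⁻¹) ^ E := by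
    rw [dd_scale θ hc0, hcΩ]
  have hcard : (conjs K (θ * algebraMap K Ω c)).card = n := by
    have hc' : algebraMap K Ω c ≠ 0 := (_root_.map_ne_zero _).2 hc0
    have h1 : conjs K (θ * algebraMap K Ω c) = (conjs K θ).image (fun x => x * algebraMap K Ω c) := by
      ext y
      rw [conjs_scale, Finset.mem_image]
      constructor
      · rintro ⟨x, hx, rfl⟩
        exact ⟨x, hx, rfl⟩
      · rintro ⟨x, hx, rfl⟩
        exact ⟨x, hx, rfl⟩
    rw [h1, Finset.card_image_of_injective _ fun x y h => mul_right_cancel₀ hc' h]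
  -- at infinity the scaled generator is integral
  have hinf : ∀ A : ValuationSubring Ω, ev k K Ω X ∉ A → ∀ x ∈ conjs K θ, x * (es ^ B)⁻¹ ∈ A := by
    intro A ht x hx
    have h1 := hconjP x hx
    have h2 : aeval x (P.map (ev k K Ω)) = 0 := by
      rw [coe_aeval_eq_eval]
      exact h1
    have h3 := scaleRoots_aeval_eq_zero (r := (es ^ B)⁻¹) h2
    rw [coe_aeval_eq_eval] at h3
    have h4 : x * (es ^ B)⁻¹ = algebraMap Ω Ω (es ^ B)⁻¹ * x := mul_comm _ _
    rw [h4]
    refine mem_of_monic ((monic_scaleRoots_iff _).2 (hP.map _)) (fun i => ?_) h3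
    rw [coeff_scaleRoots, coeff_map]
    by_cases hi : i < (P.map (ev k K Ω)).natDegree
    · have hj : 1 ≤ (P.map (ev k K Ω)).natDegree - i := by omega
      have h5 := inf_le (K := K) (Ω := Ω) ht (f := P.coeff i)
        (g := s ^ (B * ((P.map (ev k K Ω)).natDegree - i))) (pow_ne_zero _ hs0) (by
          rw [natDegree_pow]
          calc (P.coeff i).natDegree ≤ B := hBi i
            _ ≤ B * ((P.map (ev k K Ω)).natDegree - i) := Nat.le_mul_of_pos_right _ hj
            _ ≤ B * ((P.map (ev k K Ω)).natDegree - i) * s.natDegree :=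
              Nat.le_mul_of_pos_right _ hsdeg)
      rw [map_pow, pow_mul, ← inv_pow] at h5
      exact h5
    · rcases Nat.eq_or_lt_of_le (not_lt.1 hi) with h5 | h5
      · have h6 : P.coeff i = 1 := by
          rw [← h5, natDegree_map_eq_of_injective ev_inj]
          exact hP.coeff_natDegree
        rw [h6, map_one, h5, Nat.sub_self, pow_zero, one_mul]
        exact one_mem _
      · rw [natDegree_map_eq_of_injective ev_inj] at h5
        rw [coeff_eq_zero_of_natDegree_lt h5, map_zero, zero_mul]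
        exact zero_mem _
  -- the set of bad places
  let 𝓑 : Set (ValuationSubring Ω) := {A | ev k K Ω X ∉ A ∨ ev k K Ω (M * d) ∈ A.nonunits}
  -- inverses at finite bad places
  have hinv : ∀ (A : ValuationSubring Ω), ev k K Ω X ∈ A → ev k K Ω (M * d) ∈ A.nonunits →
      ∀ p : Polynomial k, Irreducible p → ¬ p ∣ M * d → (ev k K Ω p)⁻¹ ∈ A := by
    intro A ht hA p hp hpM
    apply inv_mem_of
    exact fun h => hpM (dvd_of_nonunit ht hp h hA)
  obtain ⟨u, huq, hut⟩ := exists_place (K := K) (Ω := Ω) hq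
  have hinvu : ∀ p : Polynomial k, ¬ q ∣ p → (ev k K Ω p)⁻¹ ∈ u := by
    intro p hp
    apply inv_mem_of
    exact fun h => hp (dvd_of_nonunit hut hq huq h)
  have hesu : es⁻¹ ∈ u := hinvu s fun h => by
    have h1 := (hq.dvd_symm hs h)
    exact hsq h1
  have hqd : ¬ q ∣ d := fun h => hqM (h.mul_left M)
  obtain ⟨β, hβ1, hβ2⟩ := exists_base (K := K) (Ω := Ω) (θ := θ * algebraMap K Ω c) (by
      have h1 : K⟮θ * algebraMap K Ω c⟯.fixingSubgroup = K⟮θ⟯.fixingSubgroup := by
        ext σ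
        exact fix_of_scale hc0
      rw [h1]
      exact hN') 𝓑 u r π hr0 hπ0 (by
    -- the conjugates at bad places
    intro A hA y hy
    obtain ⟨x, hx, rfl⟩ := (conjs_scale θ y).1 hy
    rw [hcΩ]
    by_cases ht : ev k K Ω X ∈ A
    · have hA' := hA.resolve_left (not_not.2 ht)
      refine mul_mem (int_mem ht hP (hconjP x hx)) ?_
      rw [← inv_pow]
      exact pow_mem (hinv A ht hA' s hs hsMd) _
    · exact hinf A ht x hx) (by
    -- `r` at bad places
    intro A hA
    rw [hcard, hdd, hrΩ]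
    have h1 : ev k K Ω ((M * d) ^ (n + 1)) * (eq ^ D)⁻¹ * ((dd K θ * ((es ^ B)⁻¹) ^ E) ^ n)⁻¹ =
        ev k K Ω F * (ev k K Ω (q ^ D))⁻¹ := by
      have hd' : dd K θ ≠ 0 := dd_ne
      have h0 : ((dd K θ * ((es ^ B)⁻¹) ^ E) ^ n)⁻¹ = (dd K θ ^ n)⁻¹ * es ^ (B * E * n) := by
        rw [inv_pow, mul_pow, inv_pow, mul_inv, inv_inv, ← pow_mul, ← pow_mul, mul_assoc B E n]
      rw [h0]
      show _ = ev k K Ω (d * M ^ (n + 1) * s ^ (B * E * n)) * _
      simp only [map_mul, map_pow, ← hes, ← heq, hd]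
      have h00 : (ev k K Ω M * dd K θ) ^ (n + 1) = ev k K Ω M ^ (n + 1) * (dd K θ ^ n * dd K θ) := by
        rw [mul_pow, pow_succ (dd K θ)]
      rw [h00]
      have h01 : dd K θ ^ n ≠ 0 := pow_ne_zero _ hd'
      field_simp
    rw [h1]
    by_cases ht : ev k K Ω X ∈ A
    · have hA' := hA.resolve_left (not_not.2 ht)
      have h2 : ev k K Ω F = ev k K Ω (M * d) * ev k K Ω (M ^ n * s ^ (B * E * n)) := by
        rw [← map_mul]
        congr 1
        show d * M ^ (n + 1) * s ^ (B * E * n) = _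
        ring
      rw [h2]
      refine nonunit_mul (nonunit_mul hA' (ev_mem ht _)) ?_
      rw [map_pow, ← inv_pow]
      exact pow_mem (hinv A ht hA' q hq hqM) _
    · refine inf_lt ht (pow_ne_zero _ hq0) ?_
      rw [natDegree_pow]
      calc F.natDegree < D := by
            show F.natDegree < F.natDegree + 2
            omega
        _ ≤ D * q.natDegree := Nat.le_mul_of_pos_right _ hqdeg) (by
    -- `π` at bad places
    intro A hA
    rw [hπΩ]
    by_cases ht : ev k K Ω X ∈ A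
    · have hA' := hA.resolve_left (not_not.2 ht)
      refine mul_mem (ev_mem ht _) ?_
      rw [← inv_pow]
      exact pow_mem (hinv A ht hA' s hs hsMd) _
    · have h1 := inf_le (K := K) (Ω := Ω) ht (f := q) (g := s ^ q.natDegree) (pow_ne_zero _ hs0) (by
        rw [natDegree_pow]
        exact Nat.le_mul_of_pos_right _ hsdeg)
      rw [map_pow] at h1
      exact h1) (by
    -- the conjugates at `u`
    intro y hy
    obtain ⟨x, hx, rfl⟩ := (conjs_scale θ y).1 hy
    rw [hcΩ]
    refine mul_mem (int_mem hut hP (hconjP x hx)) ?_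
    rw [← inv_pow]
    exact pow_mem hesu _) (by
    -- the discriminant at `u`
    rw [hdd, ← hd, mul_inv, inv_pow, inv_inv]
    exact mul_mem (hinvu d hqd) (pow_mem (pow_mem (ev_mem hut s) _) _)) (by
    -- `π` at `u`
    rw [hπΩ]
    refine nonunit_mul huq ?_
    rw [← inv_pow]
    exact pow_mem hesu _) (by
    -- `π` is a uniformizer
    intro z hz
    rw [hπΩ]
    obtain ⟨f, g, hrel, hfg⟩ := IsFractionRing.exists_reduced_fraction (A := Polynomial k) z
    have h1 : algebraMap K Ω z * ev k K Ω (g : Polynomial k) = ev k K Ω f := by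
      have h2 := IsLocalization.mk'_spec K f g
      rw [hfg] at h2
      have h3 := congrArg (algebraMap K Ω) h2
      rw [map_mul] at h3
      exact h3
    have hg0 : ev k K Ω (g : Polynomial k) ≠ 0 := ev_ne (nonZeroDivisors.ne_zero g.2)
    have h2 : q ∣ f := by
      refine dvd_of_nonunit hut hq huq ?_
      rw [← h1]
      exact nonunit_mul hz (ev_mem hut _)
    have h3 : ¬ q ∣ (g : Polynomial k) := fun h => hq.not_isUnit (hrel h2 h)
    obtain ⟨f1, rfl⟩ := h2
    have h4 : algebraMap K Ω z * (eq * (es ^ q.natDegree)⁻¹)⁻¹ =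
        ev k K Ω f1 * (ev k K Ω (g : Polynomial k))⁻¹ * es ^ q.natDegree := by
      have h5 : algebraMap K Ω z = eq * ev k K Ω f1 * (ev k K Ω (g : Polynomial k))⁻¹ := by
        rw [heq, ← map_mul, ← h1]
        field_simp
      rw [h5]
      field_simp
    rw [h4]
    exact mul_mem (mul_mem (ev_mem hut _) (hinvu _ h3)) (pow_mem (ev_mem hut _) _)) (by
    rw [map_mul, hrΩ, hπΩ]
    have h1 : (ev k K Ω ((M * d) ^ (n + 1)) * (eq ^ D)⁻¹ * (eq * (es ^ q.natDegree)⁻¹))⁻¹ =
        eq * (eq ^ F.natDegree * (ev k K Ω (M * d))⁻¹ ^ (n + 1) * es ^ q.natDegree) := by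
      have h2 : ev k K Ω (M * d) ≠ 0 := ev_ne hMd
      show (_ * (eq ^ (F.natDegree + 2))⁻¹ * _)⁻¹ = _
      rw [map_pow, inv_pow]
      have h3 : ev k K Ω (M * d) ^ (n + 1) ≠ 0 := pow_ne_zero _ h2
      have h4 : eq ^ F.natDegree ≠ 0 := pow_ne_zero _ heq0
      have h5 : eq ^ (F.natDegree + 2) = eq ^ F.natDegree * eq ^ 2 := pow_add _ _ _
      rw [h5]
      field_simp
    rw [h1]
    refine nonunit_mul huq (mul_mem (mul_mem (pow_mem (ev_mem hut _) _) (pow_mem (hinvu _ hqM) _))
      (pow_mem (ev_mem hut _) _)))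
  have hfixc : ∀ σ : Gal(Ω/K), σ ∈ K⟮θ * algebraMap K Ω c⟯.fixingSubgroup ↔
      σ ∈ N.fixingSubgroup := fun σ => by rw [fix_of_scale hc0, hNθ]
  refine ⟨β, fun g => ?_, fun A hA σ h1 h2 => ?_, fun A σ hσ h2 => ?_⟩
  · obtain ⟨a, ha, b, hb, hab⟩ := hβ1 g
    exact ⟨a, ha, b, (hfixc b).1 hb, hab⟩
  · refine (hfixc σ).1 (hβ2 A ?_ σ h1 h2)
    rcases hA with h | h
    · exact Or.inl h
    · by_cases ht : ev k K Ω X ∈ A
      · right
        rw [map_mul]
        exact nonunit_mul h (ev_mem ht _)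
      · exact Or.inl ht
  · by_cases hA : A ∈ 𝓑
    · exact (hfixc σ).1 (hβ2 A hA σ hσ.1 h2)
    · have hA1 : ev k K Ω X ∈ A := by
        by_contra h
        exact hA (Or.inl h)
      have hA2 : ev k K Ω (M * d) ∉ A.nonunits := fun h => hA (Or.inr h)
      have hA3 : (dd K θ)⁻¹ ∈ A := by
        have h3 := mul_mem (inv_mem_of hA2) (ev_mem (K := K) hA1 M)
        have h4 : (ev k K Ω (M * d))⁻¹ * ev k K Ω M = (dd K θ)⁻¹ := by
          have h5 : ev k K Ω M ≠ 0 := ev_ne hM
          rw [map_mul, hd]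
          field_simp
        rwa [h4] at h3
      rw [hNθ, mem_fix_adjoin]
      by_contra hne
      have hθA : ∀ y ∈ conjs K θ, y ∈ A := fun y hy => int_mem hA1 hP (hconjP y hy)
      have h3 := hσ.2 θ (hθA θ (self_mem θ))
      have h4 := dd_div hθA (smul_mem_conjs σ (self_mem θ)) (self_mem θ) hne
      apply one_nonunit (A := A)
      have h5 : σ θ - θ ≠ 0 := sub_ne_zero.2 hne
      have h6 : (1 : Ω) = (σ θ - θ) * ((dd K θ)⁻¹ * (dd K θ * (σ θ - θ)⁻¹)) := by
        have h7 : dd K θ ≠ 0 := dd_ne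
        field_simp
      rw [h6]
      exact nonunit_mul h3 (mul_mem hA3 h4)

end ff

end Run7.h375.SH
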