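import Pool.Agent.Run7.h375.SH.Coh

/-!
# Descent of divisible sequences and generation by steps of prime index
-/

set_option autoImplicit false

namespace Run7.h375.SH

open Subgroup

variable {G A : Type*} [Group G] [AddCommGroup A] {ρ : G →* AddMonoid.End A} {H H' : Subgroup G}
  {f g : G → A} {ι : Type*} {D : ι → Subgroup G} {ℓ : ℕ}

theorem Tate.mono [TopologicalSpace G] (h : H' ≤ H) {x : ℕ → G → A} (hx : Tate ρ D ℓ H x) :
    Tate ρ D ℓ H' x :=
  ⟨fun i => ⟨(hx.sha i).coc.mono h, (hx.sha i).smooth.mono h,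
    fun w => ((hx.sha i).loc w).mono (inf_le_inf_right _ h)⟩, hx.zero.mono h,
    fun i => (hx.step i).mono h⟩

theorem Coc.of_sha [TopologicalSpace G] {x : ℕ → G → A} (hx : Tate ρ D ℓ H x) (i : ℕ) :
    Coc ρ H (x i) := (hx.sha i).coc

/-- The elements of `H` which act trivially on the classes. -/
def fixer (ρ : G →* AddMonoid.End A) (H L : Subgroup G)
    (hn : ∀ h ∈ H, ∀ x ∈ L, h * x * h⁻¹ ∈ L) (x : ℕ → G → A) : Subgroup G where
  carrier := {a | a ∈ H ∧ ∀ i, Cob ρ L (cj ρ a (x i) - x i)}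
  mul_mem' := by
    rintro a b ⟨ha, ha'⟩ ⟨hb, hb'⟩
    refine ⟨H.mul_mem ha hb, fun i => ?_⟩
    have h1 : Cob ρ L (cj ρ a (cj ρ b (x i) - x i)) := by
      refine Cob.cj (fun y hy => ?_) (hb' i)
      have h2 := hn _ (H.inv_mem ha) y hy
      rwa [inv_inv] at h2
    have h2 : cj ρ (a * b) (x i) - x i = cj ρ a (cj ρ b (x i) - x i) + (cj ρ a (x i) - x i) := by
      rw [cj_mul, cj_sub]
      abel
    rw [h2]
    exact h1.add (ha' i)
  one_mem' := by
    refine ⟨H.one_mem, fun i => ?_⟩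
    have h1 : cj ρ 1 (x i) - x i = 0 := by
      funext σ
      show ρ 1 (x i (1⁻¹ * σ * 1)) - x i σ = 0
      rw [map_one, inv_one, one_mul, mul_one]
      exact sub_self _
    rw [h1]
    exact Cob.zero
  inv_mem' := by
    rintro a ⟨ha, ha'⟩
    refine ⟨H.inv_mem ha, fun i => ?_⟩
    have h1 : Cob ρ L (cj ρ a⁻¹ (cj ρ a (x i) - x i)) := by
      refine Cob.cj (fun y hy => ?_) (ha' i)
      rw [inv_inv]
      exact hn _ ha y hy
    have h2 : cj ρ a⁻¹ (x i) - x i = -(cj ρ a⁻¹ (cj ρ a (x i) - x i)) := by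
      rw [cj_sub, ← cj_mul, inv_mul_cancel]
      have h3 : cj ρ 1 (x i) = x i := by
        funext σ
        show ρ 1 (x i (1⁻¹ * σ * 1)) = x i σ
        rw [map_one, inv_one, one_mul, mul_one]
        rfl
      rw [h3]
      abel
    rw [h2]
    exact h1.neg

/-- **Descent.** -/
theorem descend [TopologicalSpace G] [ContinuousMul G] (hle : H' ≤ H) (hn0 : H'.relIndex H ≠ 0)
    (hH' : IsOpen (H' : Set G)) (hn : ∀ h ∈ H, ∀ x ∈ H', h * x * h⁻¹ ∈ H')
    {x : ℕ → G → A} (hx : Tate ρ D ℓ H' x)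
    (hfix : ∀ a ∈ H, ∀ i, Cob ρ H' (cj ρ a (x i) - x i)) :
    ∃ m : ℕ, m ≠ 0 ∧ ∃ y, Tate ρ D ℓ H y ∧ ∀ i, Cob ρ H' (m • x i - y i) := by
  classical
  have hfi : (H'.subgroupOf H).FiniteIndex := ⟨hn0⟩
  have ft : Fintype (H ⧸ H'.subgroupOf H) := Fintype.ofFinite _
  set n := H'.relIndex H with hndef
  have hcard : Fintype.card (H ⧸ H'.subgroupOf H) = n := by
    rw [← Nat.card_eq_fintype_card]
    rfl
  -- the restriction of the corestriction
  have hres : ∀ i, Cob ρ H' (n • x i - cor ρ H H' (x i)) := by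
    intro i
    have h1 : Cob ρ H' (∑ c : H ⧸ H'.subgroupOf H, (x i - cj ρ ((c.out : H) : G) (x i))) :=
      Cob.sum fun c _ => by
        have h2 := (hfix _ (c.out).2 i).neg
        rwa [neg_sub] at h2
    refine h1.congr fun σ hσ => ?_
    rw [Pi.sub_apply, cor_restrict hn hle hσ, Finset.sum_sub_distrib, Finset.sum_const,
      Finset.card_univ, hcard]
    rfl
  have hcob : ∀ z : G → A, Coc ρ H' z → Cob ρ H' z → Cob ρ H (n • cor ρ H H' z) := by
    intro z hz hz'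
    refine cob_of_finite hle hn0 (cor_coc hz) ?_
    have h1 : Cob ρ H' (∑ c : H ⧸ H'.subgroupOf H, cj ρ ((c.out : H) : G) z) :=
      Cob.sum fun c _ => by
        refine Cob.cj (fun y hy => ?_) hz'
        have h2 := hn _ (H.inv_mem (c.out).2) y hy
        rwa [inv_inv] at h2
    exact h1.congr fun σ hσ => (cor_restrict hn hle hσ).symm
  refine ⟨n * n, mul_ne_zero hn0 hn0, fun i => n • cor ρ H H' (x i), ⟨fun i => ?_, ?_, fun i => ?_⟩,
    fun i => ?_⟩
  · refine ⟨(cor_coc (hx.sha i).coc).nsmul n, (cor_smooth hH' hn hle (hx.sha i).smooth).nsmul n,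
      fun w => ?_⟩
    -- local triviality
    have h1 : (H' ⊓ D w).relIndex (H ⊓ D w) = H'.relIndex (H ⊓ D w) := by
      rw [← inf_relIndex_right, ← inf_relIndex_right H']
      congr 1
      ext z
      simp only [mem_inf]
      constructor
      · rintro ⟨⟨h1, h2⟩, h3, -⟩
        exact ⟨h1, h3, h2⟩
      · rintro ⟨h1, h3, h2⟩
        exact ⟨⟨h1, h2⟩, h3, h2⟩
    have h2 : H'.relIndex (H ⊓ D w) ∣ n := by
      have h3 : (H'.subgroupOf H).Normal := by
        refine ⟨fun y hy h => ?_⟩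
        rw [mem_subgroupOf] at hy ⊢
        exact hn h h.2 y hy
      have h4 := relIndex_dvd_index_of_normal (H'.subgroupOf H) ((H ⊓ D w).subgroupOf H)
      have h5 : (H'.subgroupOf H).relIndex ((H ⊓ D w).subgroupOf H) = H'.relIndex (H ⊓ D w) :=
        relIndex_subgroupOf inf_le_left
      rw [h5] at h4
      exact h4
    have h3 : (H' ⊓ D w).relIndex (H ⊓ D w) ≠ 0 := by
      rw [h1]
      intro h
      rw [h] at h2
      exact hn0 (Nat.eq_zero_of_zero_dvd h2)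
    have h4 : Cob ρ (H' ⊓ D w) (cor ρ H H' (x i)) := by
      have h5 := ((hx.sha i).loc w).nsmul n
      have h6 := (hres i).mono (inf_le_left : H' ⊓ D w ≤ H')
      have h7 : cor ρ H H' (x i) = n • x i - (n • x i - cor ρ H H' (x i)) := by abel
      rw [h7]
      exact h5.sub h6
    have h5 := cob_of_finite (inf_le_inf_right (D w) hle) h3
      ((cor_coc (H := H) (H' := H') (hx.sha i).coc).mono inf_le_left) h4
    obtain ⟨k, hk⟩ := h2
    rw [h1] at h5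
    have h6 := h5.nsmul k
    rw [smul_smul, mul_comm k, ← hk] at h6
    exact h6
  · exact hcob _ (hx.sha 0).coc hx.zero
  · have h1 := hcob _ (((hx.sha (i + 1)).coc.nsmul ℓ).sub (hx.sha i).coc) (hx.step i)
    rw [cor_sub, cor_nsmul, smul_sub, smul_comm n ℓ] at h1
    exact h1
  · have h1 := (hres i).nsmul n
    rw [smul_sub, smul_smul] at h1
    exact h1

/-- Restriction is injective on divisible sequences. -/
theorem restrict_inj [TopologicalSpace G] (hℓ : ℓ.Prime) (hle : H' ≤ H) (hn0 : H'.relIndex H ≠ 0)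
    {z : ℕ → G → A} (hz : ∀ i, Coc ρ H (z i)) (h0 : Cob ρ H (z 0))
    (hs : ∀ i, Cob ρ H (ℓ • z (i + 1) - z i)) (h : ∀ i, Cob ρ H' (z i)) : ∀ i, Cob ρ H (z i) :=
  cob_torsion hℓ h0 hs hn0 fun i => cob_of_finite hle hn0 (hz i) (h i)

/-- The sequence `g x - x`. -/
theorem cj_seq [TopologicalSpace G] {x : ℕ → G → A} (hx : Tate ρ D ℓ H x) {a : G}
    (ha : ∀ y ∈ H, a⁻¹ * y * a ∈ H) :
    (∀ i, Coc ρ H (cj ρ a (x i) - x i)) ∧ Cob ρ H (cj ρ a (x 0) - x 0) ∧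
      ∀ i, Cob ρ H (ℓ • (cj ρ a (x (i + 1)) - x (i + 1)) - (cj ρ a (x i) - x i)) := by
  refine ⟨fun i => ((hx.sha i).coc.cj ha).sub (hx.sha i).coc, (hx.zero.cj ha).sub hx.zero,
    fun i => ?_⟩
  have h1 := ((hx.step i).cj ha).sub (hx.step i)
  rw [cj_sub, cj_nsmul] at h1
  have h2 : ℓ • cj ρ a (x (i + 1)) - cj ρ a (x i) - (ℓ • x (i + 1) - x i) =
      ℓ • (cj ρ a (x (i + 1)) - x (i + 1)) - (cj ρ a (x i) - x i) := by
    rw [smul_sub]
    abel
  rwa [h2] at h1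

/-- The index of a step. -/
theorem step_index {L : Subgroup G} (hn : ∀ h ∈ H, ∀ x ∈ L, h * x * h⁻¹ ∈ L) {a : G} (ha : a ∈ H)
    {k r : ℕ} (hr : r.Prime) (hrk : r ∣ k) (hk : ∀ j : ℤ, a ^ j ∈ L ↔ (k : ℤ) ∣ j) :
    (∀ h ∈ L ⊔ zpowers a, ∀ x ∈ L ⊔ zpowers (a ^ r), h * x * h⁻¹ ∈ L ⊔ zpowers (a ^ r)) ∧
    (L ⊔ zpowers (a ^ r)).relIndex (L ⊔ zpowers a) = r := by
  -- `a` normalizes `L`
  have hzH : ∀ j : ℤ, a ^ j ∈ H := fun j => H.zpow_mem ha j
  have hzn : ∀ (j : ℤ), ∀ x ∈ L, a ^ j * x * (a ^ j)⁻¹ ∈ L := fun j x hx => hn _ (hzH j) x hx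
  have hmem : ∀ (b : G), (∀ j : ℤ, ∀ x ∈ L, b ^ j * x * (b ^ j)⁻¹ ∈ L) →
      ∀ x, x ∈ L ⊔ zpowers b ↔ ∃ y ∈ L, ∃ j : ℤ, x = y * b ^ j := by
    intro b hb x
    constructor
    · intro hx
      let S : Subgroup G :=
        { carrier := {x | ∃ y ∈ L, ∃ j : ℤ, x = y * b ^ j}
          mul_mem' := by
            rintro _ _ ⟨y, hy, j, rfl⟩ ⟨y', hy', j', rfl⟩
            refine ⟨y * (b ^ j * y' * (b ^ j)⁻¹), L.mul_mem hy (hb j y' hy'), j + j', ?_⟩
            rw [zpow_add]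
            group
          one_mem' := ⟨1, L.one_mem, 0, by simp⟩
          inv_mem' := by
            rintro _ ⟨y, hy, j, rfl⟩
            refine ⟨b ^ (-j) * y⁻¹ * (b ^ (-j))⁻¹, hb (-j) _ (L.inv_mem hy), -j, ?_⟩
            group }
      have h1 : L ⊔ zpowers b ≤ S := by
        rw [sup_le_iff, zpowers_le]
        exact ⟨fun y hy => ⟨y, hy, 0, by simp⟩, ⟨1, L.one_mem, 1, by simp⟩⟩
      exact h1 hx
    · rintro ⟨y, hy, j, rfl⟩
      exact mul_mem (mem_sup_left hy) (mem_sup_right ⟨j, rfl⟩)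
  have hm1 := hmem a hzn
  have hpow : ∀ j : ℤ, (a ^ r) ^ j = a ^ ((r : ℤ) * j) := fun j => by
    rw [zpow_mul, zpow_natCast]
  have hm2 := hmem (a ^ r) (fun j x hx => by
    rw [hpow]
    exact hzn _ x hx)
  have hnorm : ∀ h ∈ L ⊔ zpowers a, ∀ x ∈ L ⊔ zpowers (a ^ r),
      h * x * h⁻¹ ∈ L ⊔ zpowers (a ^ r) := by
    intro h hh x hx
    obtain ⟨y, hy, j, rfl⟩ := (hm1 h).1 hh
    obtain ⟨y', hy', j', rfl⟩ := (hm2 x).1 hx
    have h1 : y * a ^ j * (y' * (a ^ r) ^ j') * (y * a ^ j)⁻¹ =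
        y * (a ^ j * y' * (a ^ j)⁻¹) * (a ^ r) ^ j' * y⁻¹ := by
      rw [hpow]
      have h2 : a ^ j * a ^ ((r : ℤ) * j') * (a ^ j)⁻¹ = a ^ ((r : ℤ) * j') := by
        rw [← zpow_add, ← zpow_neg, ← zpow_add]
        congr 1
        ring
      calc y * a ^ j * (y' * a ^ ((r : ℤ) * j')) * (y * a ^ j)⁻¹
          = y * (a ^ j * y' * (a ^ j)⁻¹) * (a ^ j * a ^ ((r : ℤ) * j') * (a ^ j)⁻¹) * y⁻¹ := by group
        _ = _ := by rw [h2]
    rw [h1]
    exact mul_mem (mul_mem (mem_sup_left (L.mul_mem hy (hzn j _ hy'))) (mem_sup_right ⟨j', rfl⟩))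
      (mem_sup_left (L.inv_mem hy))
  refine ⟨hnorm, ?_⟩
  set H1 := L ⊔ zpowers a with hH1
  set H2 := L ⊔ zpowers (a ^ r) with hH2
  have h21 : H2 ≤ H1 := by
    rw [hH2, sup_le_iff, zpowers_le]
    exact ⟨le_sup_left, H1.pow_mem (mem_sup_right (mem_zpowers a)) r⟩
  have hN : (H2.subgroupOf H1).Normal := by
    refine ⟨fun y hy h => ?_⟩
    rw [mem_subgroupOf] at hy ⊢
    exact hnorm h h.2 y hy
  have haH : a ∈ H1 := mem_sup_right (mem_zpowers a)
  let q : H1 ⧸ H2.subgroupOf H1 := QuotientGroup.mk ⟨a, haH⟩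
  have hq1 : q ^ r = 1 := by
    show (QuotientGroup.mk ((⟨a, haH⟩ : H1) ^ r) : H1 ⧸ H2.subgroupOf H1) = 1
    rw [QuotientGroup.eq_one_iff, mem_subgroupOf]
    exact mem_sup_right (mem_zpowers (a ^ r))
  have hq2 : q ≠ 1 := by
    intro h
    have h1 : (⟨a, haH⟩ : H1) ∈ H2.subgroupOf H1 := (QuotientGroup.eq_one_iff _).1 h
    rw [mem_subgroupOf] at h1
    obtain ⟨y, hy, j, hj⟩ := (hm2 a).1 h1
    have h2 : a ^ (1 - (r : ℤ) * j) ∈ L := by
      have h3 : a ^ (1 - (r : ℤ) * j) = y := by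
        rw [zpow_sub, zpow_one, ← hpow]
        nth_rewrite 1 [hj]
        group
      rw [h3]
      exact hy
    have h3 : (r : ℤ) ∣ 1 - (r : ℤ) * j := (Int.natCast_dvd_natCast.2 hrk).trans ((hk _).1 h2)
    have h4 : (r : ℤ) ∣ 1 := by
      have h5 := dvd_add h3 (dvd_mul_right (r : ℤ) j)
      rwa [sub_add_cancel] at h5
    exact hr.one_lt.ne' (by exact_mod_cast Int.eq_one_of_dvd_one (by positivity) h4)
  have hrf : Fact r.Prime := ⟨hr⟩
  have hord : orderOf q = r := orderOf_eq_prime hq1 hq2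
  have htop : zpowers q = ⊤ := by
    rw [eq_top_iff]
    rintro z -
    obtain ⟨⟨h, hh⟩, rfl⟩ := QuotientGroup.mk_surjective z
    obtain ⟨y, hy, j, rfl⟩ := (hm1 h).1 hh
    refine ⟨j, ?_⟩
    show (QuotientGroup.mk ((⟨a, haH⟩ : H1) ^ j) : H1 ⧸ H2.subgroupOf H1) = _
    rw [QuotientGroup.eq, mem_subgroupOf]
    have h1 : (((⟨a, haH⟩ : H1) ^ j)⁻¹ * ⟨y * a ^ j, hh⟩ : H1).1 = a ^ (-j) * y * (a ^ (-j))⁻¹ := by
      push_cast
      group
    rw [h1]
    exact mem_sup_left (hzn (-j) y hy)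
  show Nat.card (H1 ⧸ H2.subgroupOf H1) = r
  rw [← hord, ← Nat.card_zpowers, htop]
  exact (Nat.card_congr Subgroup.topEquiv.toEquiv).symm

/-- **Generation by steps of prime index.** -/
theorem trivial_action [TopologicalSpace G] [ContinuousMul G] (hℓ : ℓ.Prime) {L : Subgroup G}
    (hLo : IsOpen (L : Set G)) (hLH : L ≤ H) (hL0 : L.relIndex H ≠ 0)
    (hn : ∀ h ∈ H, ∀ x ∈ L, h * x * h⁻¹ ∈ L)
    (hno : ∀ H1 H2 : Subgroup G, L ≤ H2 → H2 ≤ H1 → H1 ≤ H →
      (∀ h ∈ H1, ∀ x ∈ H2, h * x * h⁻¹ ∈ H2) → (H2.relIndex H1).Prime → NoGrowth ρ D ℓ H1 H2)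
    {x : ℕ → G → A} (hx : Tate ρ D ℓ L x) :
    ∀ k : ℕ, k ≠ 0 → ∀ a ∈ H, (∀ j : ℤ, a ^ j ∈ L ↔ (k : ℤ) ∣ j) →
      ∀ i, Cob ρ L (cj ρ a (x i) - x i) := by
  intro k
  induction k using Nat.strong_induction_on with
  | _ k ih =>
    intro hk0 a ha hk
    by_cases hk1 : k = 1
    · subst hk1
      have haL : a ∈ L := by
        have h1 := (hk 1).2 (by simp)
        rwa [zpow_one] at h1
      exact fun i => cj_self haL (hx.sha i).coc
    have hr := Nat.minFac_prime hk1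
    set r := k.minFac with hrdef
    obtain ⟨k', hk'⟩ := Nat.minFac_dvd k
    rw [← hrdef] at hk'
    have hk'0 : k' ≠ 0 := by
      rintro rfl
      rw [mul_zero] at hk'
      exact hk0 hk'
    have hk'k : k' < k := by
      conv_rhs => rw [hk']
      exact lt_mul_of_one_lt_left (Nat.pos_of_ne_zero hk'0) hr.one_lt
    obtain ⟨hnorm, hidx⟩ := step_index hn ha hr (Nat.minFac_dvd k) hk
    set H1 := L ⊔ zpowers a with hH1
    set H2 := L ⊔ zpowers (a ^ r) with hH2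
    have hL2 : L ≤ H2 := le_sup_left
    have h21 : H2 ≤ H1 := by
      rw [hH2, sup_le_iff, zpowers_le]
      exact ⟨le_sup_left, H1.pow_mem (mem_sup_right (mem_zpowers a)) r⟩
    have h1H : H1 ≤ H := by
      rw [hH1, sup_le_iff, zpowers_le]
      exact ⟨hLH, ha⟩
    have h2H : H2 ≤ H := h21.trans h1H
    have haH1 : a ∈ H1 := mem_sup_right (mem_zpowers a)
    -- the elements of `H2` act trivially
    have har : a ^ r ∈ H := H.pow_mem ha r
    have h1 := ih k' hk'k hk'0 (a ^ r) har (fun j => by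
      have h2 : (a ^ r) ^ j = a ^ ((r : ℤ) * j) := by rw [zpow_mul, zpow_natCast]
      rw [h2, hk, hk']
      push_cast
      exact mul_dvd_mul_iff_left (by exact_mod_cast hr.ne_zero))
    have hfix : ∀ b ∈ H2, ∀ i, Cob ρ L (cj ρ b (x i) - x i) := by
      have h2 : H2 ≤ fixer ρ H L hn x := by
        rw [hH2, sup_le_iff, zpowers_le]
        refine ⟨fun b hb => ⟨hLH hb, fun i => cj_self hb (hx.sha i).coc⟩, har, h1⟩
      exact fun b hb => (h2 hb).2
    have hL20 : L.relIndex H2 ≠ 0 := by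
      intro h
      have h3 := relIndex_mul_relIndex L H2 H hL2 h2H
      rw [h, zero_mul] at h3
      exact hL0 h3.symm
    obtain ⟨m, hm, y, hy, hxy⟩ := descend hL2 hL20 hLo (fun h hh => hn h (h2H hh)) hx hfix
    obtain ⟨m', hm', z, hz, hyz⟩ := hno H1 H2 hL2 h21 h1H hnorm (by rw [hidx]; exact hr) y hy
    -- the multiple comes from `H1`
    have ha' : ∀ w ∈ L, a⁻¹ * w * a ∈ L := fun w hw => by
      have h3 := hn _ (H.inv_mem ha) w hw
      rwa [inv_inv] at h3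
    obtain ⟨s1, s2, s3⟩ := cj_seq hx ha'
    refine cob_torsion hℓ s2 s3 (mul_ne_zero hm' hm) fun i => ?_
    have h3 : Cob ρ L ((m' * m) • x i - z i) := by
      have h4 := ((hxy i).nsmul m').add ((hyz i).mono hL2)
      have h5 : m' • (m • x i - y i) + (m' • y i - z i) = (m' * m) • x i - z i := by
        rw [smul_sub, smul_smul]
        abel
      rwa [h5] at h4
    have h4 : Cob ρ L (cj ρ a (z i) - z i) := (cj_self haH1 (hz.sha i).coc).mono (hL2.trans h21)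
    have h5 := (h3.cj ha').sub h3
    rw [cj_sub, cj_nsmul] at h5
    have h6 : (m' * m) • (cj ρ a (x i) - x i) =
        ((m' * m) • cj ρ a (x i) - cj ρ a (z i) - ((m' * m) • x i - z i)) +
          (cj ρ a (z i) - z i) := by
      rw [smul_sub]
      abel
    rw [h6]
    exact h5.add h4

/-- **The main theorem, abstract form.** -/
theorem main [TopologicalSpace G] [ContinuousMul G] (hℓ : ℓ.Prime) {N K : Subgroup G}
    (hNn : N.Normal) (hNo : IsOpen (N : Set G)) (hN0 : N.index ≠ 0) (hKo : IsOpen (K : Set G))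
    (hK0 : K.index ≠ 0) (hcov : ∀ g : G, ∃ a ∈ K, ∃ b ∈ N, g = a * b)
    (hno : ∀ H1 H2 : Subgroup G, N ⊓ K ≤ H2 → H2 ≤ H1 → H1 ≤ K →
      (∀ h ∈ H1, ∀ x ∈ H2, h * x * h⁻¹ ∈ H2) → (H2.relIndex H1).Prime → NoGrowth ρ D ℓ H1 H2)
    (h0 : Free ρ D ℓ (⊤ : Subgroup G)) : Free ρ D ℓ N := by
  intro x hx
  have hLo : IsOpen ((N ⊓ K : Subgroup G) : Set G) := by
    rw [coe_inf]
    exact hNo.inter hKo
  have hL0 : (N ⊓ K).index ≠ 0 := index_inf_ne_zero hN0 hK0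
  have hrel : ∀ {P Q : Subgroup G}, P ≤ Q → P.index ≠ 0 → P.relIndex Q ≠ 0 := by
    intro P Q hPQ hP h
    have h1 := relIndex_mul_index hPQ
    rw [h, zero_mul] at h1
    exact hP h1.symm
  have hLn : ∀ h ∈ K, ∀ x ∈ N ⊓ K, h * x * h⁻¹ ∈ N ⊓ K := fun h hh x hx =>
    ⟨hNn.conj_mem x hx.1 h, K.mul_mem (K.mul_mem hh hx.2) (K.inv_mem hh)⟩
  have hK : ∀ a ∈ K, ∀ i, Cob ρ (N ⊓ K) (cj ρ a (x i) - x i) := by
    intro a ha
    -- the order of `a` modulo `N ⊓ K`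
    have hN' : ((N ⊓ K).subgroupOf K).Normal := by
      refine ⟨fun y hy h => ?_⟩
      rw [mem_subgroupOf] at hy ⊢
      exact hLn h h.2 y hy
    have hfin : Finite (K ⧸ (N ⊓ K).subgroupOf K) := by
      have : ((N ⊓ K).subgroupOf K).FiniteIndex := ⟨hrel inf_le_right hL0⟩
      infer_instance
    let q : K ⧸ (N ⊓ K).subgroupOf K := QuotientGroup.mk ⟨a, ha⟩
    refine trivial_action hℓ hLo inf_le_right (hrel inf_le_right hL0) hLn hno (hx.mono inf_le_left)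
      (orderOf q) (orderOf_pos q).ne' a ha fun j => ?_
    rw [orderOf_dvd_iff_zpow_eq_one]
    have h1 : q ^ j = QuotientGroup.mk ((⟨a, ha⟩ : K) ^ j) := rfl
    rw [h1, QuotientGroup.eq_one_iff, mem_subgroupOf]
    push_cast
    exact Iff.rfl
  have hall : ∀ a ∈ (⊤ : Subgroup G), ∀ i, Cob ρ N (cj ρ a (x i) - x i) := by
    have h1 : ∀ a ∈ K, ∀ i, Cob ρ N (cj ρ a (x i) - x i) := by
      intro a ha
      have ha' : ∀ y ∈ N, a⁻¹ * y * a ∈ N := fun y hy => by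
        have h3 := hNn.conj_mem y hy a⁻¹
        rwa [inv_inv] at h3
      obtain ⟨s1, s2, s3⟩ := cj_seq hx ha'
      exact restrict_inj hℓ inf_le_left (hrel inf_le_left hL0) s1 s2 s3 (hK a ha)
    have h2 : (⊤ : Subgroup G) ≤ fixer ρ ⊤ N (fun h _ y hy => hNn.conj_mem y hy h) x := by
      intro g _
      obtain ⟨a, ha, b, hb, rfl⟩ := hcov g
      exact mul_mem ⟨mem_top _, h1 a ha⟩ ⟨mem_top _, fun i => cj_self hb (hx.sha i).coc⟩
    exact fun a ha => (h2 ha).2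
  have htop : N.relIndex ⊤ ≠ 0 := by rwa [relIndex_top_right]
  obtain ⟨m, hm, y, hy, hxy⟩ := descend le_top htop hNo (fun h _ y hy => hNn.conj_mem y hy h) hx hall
  have h1 := h0 y hy
  refine cob_torsion hℓ hx.zero hx.step hm fun i => ?_
  have h2 := (hxy i).add ((h1 i).mono le_top)
  rwa [sub_add_cancel] at h2

/-- Vanishing for subgroups of larger fields. -/
theorem Free.up [TopologicalSpace G] (hℓ : ℓ.Prime) (hle : H' ≤ H) (hn0 : H'.relIndex H ≠ 0)
    (h : Free ρ D ℓ H') : Free ρ D ℓ H := by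
  intro x hx
  exact restrict_inj hℓ hle hn0 (fun i => (hx.sha i).coc) hx.zero hx.step (h x (hx.mono hle))

theorem NoGrowth.of_free [TopologicalSpace G] (h : Free ρ D ℓ H') : NoGrowth ρ D ℓ H H' := by
  intro x hx
  refine ⟨1, one_ne_zero, 0, ⟨fun i => ⟨Coc.zero, ⟨⊤, isOpen_univ, fun _ _ _ => rfl⟩,
    fun _ => Cob.zero⟩, Cob.zero, fun i => ?_⟩, fun i => ?_⟩
  · have : ℓ • (0 : ℕ → G → A) (i + 1) - (0 : ℕ → G → A) i = 0 := by simp
    rw [this]
    exact Cob.zero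
  · have : 1 • x i - (0 : ℕ → G → A) i = x i := by simp
    rw [this]
    exact h x hx i

end Run7.h375.SH
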