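import Pool.Agent.Run7.h375.SH.FFBase
import Pool.Agent.Run7.h375.SH.Main

/-!
# The reduction theorem for fields
-/

set_option autoImplicit false

namespace Run7.h375.SH

open IntermediateField Module
open scoped Pointwise

section gal

variable {K Ω : Type*} [Field K] [Field Ω] [Algebra K Ω] [IsGalois K Ω]

set_option linter.unusedSectionVars false

theorem fix_fixed' {W : Subgroup Gal(Ω/K)} (hW : IsOpen (W : Set Gal(Ω/K))) :
    (fixedField W).fixingSubgroup = W :=
  InfiniteGalois.fixingSubgroup_fixedField ⟨W, W.isClosed_of_isOpen hW⟩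

theorem finite_fixed' {W : Subgroup Gal(Ω/K)} (hW : IsOpen (W : Set Gal(Ω/K)))
    (hf : W.index ≠ 0) : FiniteDimensional K (fixedField W) := by
  apply FiniteDimensional.of_finrank_pos
  rw [finrank_eq_fixingSubgroup_index, fix_fixed' hW]
  exact Nat.pos_of_ne_zero hf

theorem index_ne (E : IntermediateField K Ω) [FiniteDimensional K E] :
    E.fixingSubgroup.index ≠ 0 := by
  rw [← finrank_eq_fixingSubgroup_index]
  exact (finrank_pos (R := K) (M := E)).ne'

theorem fd_adjoin (β : Ω) : FiniteDimensional K K⟮β⟯ := adjoin.finiteDimensional (integral β)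

theorem exists_normal (F : IntermediateField K Ω) [FiniteDimensional K F] :
    ∃ N : IntermediateField K Ω, F ≤ N ∧ FiniteDimensional K N ∧ N.fixingSubgroup.Normal := by
  have h1 : Normal K Ω := inferInstance
  refine ⟨normalClosure K F Ω, F.le_normalClosure, inferInstance, ?_⟩
  have h2 : IsGalois K (normalClosure K F Ω) := inferInstance
  exact (InfiniteGalois.normal_iff_isGalois _).2 h2

theorem fd_of_le' {E F : IntermediateField K Ω} [FiniteDimensional K F] (h : E ≤ F) :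
    FiniteDimensional K E :=
  Submodule.finiteDimensional_of_le (S₁ := Subalgebra.toSubmodule E.toSubalgebra)
    (S₂ := Subalgebra.toSubmodule F.toSubalgebra) h

/-- Open subgroups contain the Galois groups of finite extensions. -/
theorem exists_fd_of_open {U : Subgroup Gal(Ω/K)} (hU : IsOpen (U : Set Gal(Ω/K))) :
    ∃ M : IntermediateField K Ω, FiniteDimensional K M ∧ M.fixingSubgroup ≤ U := by
  have h1 : (U : Set Gal(Ω/K)) ∈ nhds (1 : Gal(Ω/K)) := hU.mem_nhds U.one_mem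
  obtain ⟨E, hE, hEU⟩ := (krullTopology_mem_nhds_one_iff K Ω _).1 h1
  exact ⟨E, hE, hEU⟩

theorem relIndex_ne {F N : IntermediateField K Ω} [FiniteDimensional K N] (h : F ≤ N) :
    N.fixingSubgroup.relIndex F.fixingSubgroup ≠ 0 := by
  intro h1
  have h2 := Subgroup.relIndex_mul_index (fixingSubgroup_le h)
  rw [h1, zero_mul] at h2
  exact index_ne N h2.symm

end gal

/-- Every finite extension can be made unramified, and completely split at the bad places, by a
linearly disjoint base change. -/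
def HasBase (K Ω : Type*) [Field K] [Field Ω] [Algebra K Ω] (Bad : ValuationSubring Ω → Prop) :
    Prop :=
  ∀ F : IntermediateField K Ω, FiniteDimensional K F → ∃ (N : IntermediateField K Ω) (β : Ω),
    F ≤ N ∧ FiniteDimensional K N ∧ N.fixingSubgroup.Normal ∧
    (∀ g : Gal(Ω/K), ∃ a ∈ K⟮β⟯.fixingSubgroup, ∃ b ∈ N.fixingSubgroup, g = a * b) ∧
    (∀ A : ValuationSubring Ω, Bad A → ∀ σ : Gal(Ω/K), σ • A = A → σ ∈ K⟮β⟯.fixingSubgroup →
      σ ∈ N.fixingSubgroup) ∧
    (∀ A : ValuationSubring Ω, ∀ σ : Gal(Ω/K), InInertia A σ → σ ∈ K⟮β⟯.fixingSubgroup →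
      σ ∈ N.fixingSubgroup)

section red

variable {K Ω : Type*} [Field K] [Field Ω] [Algebra K Ω] [IsGalois K Ω]
  {A : Type*} [AddCommGroup A]

/-- **The reduction theorem.** -/
theorem red_main {Bad : ValuationSubring Ω → Prop} (hB : HasBase K Ω Bad)
    (ρ : Gal(Ω/K) →* AddMonoid.End A) {ι : Type*}
    (D : ι → Subgroup Gal(Ω/K)) {ℓ : ℕ} (hℓ : ℓ.Prime)
    (h0 : Free ρ D ℓ (⊤ : Subgroup Gal(Ω/K)))
    (h1 : ∀ F L : IntermediateField K Ω, FiniteDimensional K L → F ≤ L →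
      (∀ σ ∈ F.fixingSubgroup, ∀ x ∈ L, σ x ∈ L) →
      (∃ r : ℕ, r.Prime ∧ finrank K L = r * finrank K F) →
      (∀ (B : ValuationSubring Ω), ∀ σ ∈ F.fixingSubgroup, InInertia B σ → σ ∈ L.fixingSubgroup) →
      (∀ (B : ValuationSubring Ω), Bad B →
        ∀ σ ∈ F.fixingSubgroup, σ • B = B → σ ∈ L.fixingSubgroup) →
      NoGrowth ρ D ℓ F.fixingSubgroup L.fixingSubgroup)
    (F : IntermediateField K Ω) [hF : FiniteDimensional K F] : Free ρ D ℓ F.fixingSubgroup := by
  obtain ⟨N, β, hFN, hNfd, hNn, hβ1, hβ2, hβ3⟩ := hB F hF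
  have hβfd := fd_adjoin (K := K) β
  have hNo := N.fixingSubgroup_isOpen
  have hβo := K⟮β⟯.fixingSubgroup_isOpen
  have hLo : IsOpen ((N.fixingSubgroup ⊓ K⟮β⟯.fixingSubgroup : Subgroup Gal(Ω/K)) :
      Set Gal(Ω/K)) := by
    rw [Subgroup.coe_inf]
    exact hNo.inter hβo
  have hL0 : (N.fixingSubgroup ⊓ K⟮β⟯.fixingSubgroup).index ≠ 0 :=
    Subgroup.index_inf_ne_zero (index_ne N) (index_ne _)
  have hN : Free ρ D ℓ N.fixingSubgroup := by
    refine main hℓ hNn hNo (index_ne N) hβo (index_ne _) hβ1 ?_ h0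
    intro H1 H2 hLH hle hH1 hn hr
    have ho2 : IsOpen (H2 : Set Gal(Ω/K)) := Subgroup.isOpen_mono hLH hLo
    have ho1 : IsOpen (H1 : Set Gal(Ω/K)) := Subgroup.isOpen_mono hle ho2
    have hi : ∀ H : Subgroup Gal(Ω/K), N.fixingSubgroup ⊓ K⟮β⟯.fixingSubgroup ≤ H →
        H.index ≠ 0 := by
      intro H hH h
      have h2 := Subgroup.index_dvd_of_le hH
      rw [h] at h2
      exact hL0 (Nat.eq_zero_of_zero_dvd h2)
    have e1 := fix_fixed' ho1
    have e2 := fix_fixed' ho2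
    have hfd2 := finite_fixed' ho2 (hi H2 hLH)
    have hmem : ∀ x, x ∈ fixedField H2 ↔ ∀ w ∈ H2, w x = x := fun x => mem_fixedField_iff _ _
    have h2 := h1 (fixedField H1) (fixedField H2) hfd2 (fixedField_antitone hle) (by
        intro σ hσ x hx
        rw [e1] at hσ
        rw [hmem] at hx ⊢
        intro w hw
        have h3 := hn σ⁻¹ (H1.inv_mem hσ) w hw
        rw [inv_inv] at h3
        have h4 := hx _ h3
        have h5 : σ ((σ⁻¹ * w * σ) x) = w (σ x) := by
          rw [← AlgEquiv.mul_apply, ← AlgEquiv.mul_apply]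
          congr 1
          group
        rw [← h5, h4]) (by
        refine ⟨_, hr, ?_⟩
        rw [finrank_eq_fixingSubgroup_index, finrank_eq_fixingSubgroup_index, e1, e2]
        exact (Subgroup.relIndex_mul_index hle).symm) (by
        intro B σ hσ hσB
        rw [e1] at hσ
        rw [e2]
        exact hLH ⟨hβ3 B σ hσB (hH1 hσ), hH1 hσ⟩) (by
        intro B hB σ hσ hσB
        rw [e1] at hσ
        rw [e2]
        exact hLH ⟨hβ2 B hB σ hσB (hH1 hσ), hH1 hσ⟩)
    rwa [e1, e2] at h2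
  exact hN.up hℓ (fixingSubgroup_le hFN) (relIndex_ne hFN)

/-- Base changes over a larger field. -/
theorem HasBase.tower {K₀ : Type*} [Field K₀] [Algebra K₀ K] [Algebra K₀ Ω]
    [IsScalarTower K₀ K Ω] [FiniteDimensional K₀ K] [IsGalois K₀ Ω]
    {Bad : ValuationSubring Ω → Prop} (hB : HasBase K₀ Ω Bad) : HasBase K Ω Bad := by
  intro F hF
  have h1 : FiniteDimensional K₀ (F.restrictScalars K₀) := by
    have h2 : FiniteDimensional K₀ F := FiniteDimensional.trans K₀ K F
    exact h2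
  obtain ⟨N, β, hFN, hNfd, hNn, hβ1, hβ2, hβ3⟩ := hB (F.restrictScalars K₀) h1
  have hKN : ∀ x : K, algebraMap K Ω x ∈ N := fun x => hFN (F.algebraMap_mem x)
  let N' : IntermediateField K Ω := { N.toSubfield with algebraMap_mem' := hKN }
  have hmem : ∀ x, x ∈ N' ↔ x ∈ N := fun x => Iff.rfl
  let j : Gal(Ω/K) → Gal(Ω/K₀) := fun σ => σ.restrictScalars K₀
  have hj : ∀ σ, j σ ∈ N.fixingSubgroup ↔ σ ∈ N'.fixingSubgroup := by
    intro σ
    rw [IntermediateField.mem_fixingSubgroup_iff, IntermediateField.mem_fixingSubgroup_iff]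
    exact Iff.rfl
  have hjβ : ∀ σ, j σ ∈ K₀⟮β⟯.fixingSubgroup ↔ σ ∈ K⟮β⟯.fixingSubgroup := by
    intro σ
    rw [mem_fix_adjoin, mem_fix_adjoin]
    exact Iff.rfl
  have hlift : ∀ τ : Gal(Ω/K₀), (∀ x : K, τ (algebraMap K Ω x) = algebraMap K Ω x) →
      ∃ σ, j σ = τ := fun τ hτ => ⟨{ τ with commutes' := hτ }, rfl⟩
  refine ⟨N', β, fun x hx => hFN hx, ?_, ?_, fun g => ?_, fun A hA σ h2 h3 => ?_,
    fun A σ h2 h3 => ?_⟩
  · have h2 : FiniteDimensional K₀ N' := hNfd
    exact FiniteDimensional.right K₀ K N'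
  · refine ⟨fun σ hσ τ => ?_⟩
    rw [← hj] at hσ ⊢
    exact hNn.conj_mem _ hσ (j τ)
  · obtain ⟨a, ha, b, hb, hab⟩ := hβ1 (j g)
    have hbK : ∀ x : K, b (algebraMap K Ω x) = algebraMap K Ω x := fun x =>
      (IntermediateField.mem_fixingSubgroup_iff _ _).1 hb _ (hKN x)
    obtain ⟨b', rfl⟩ := hlift b hbK
    have haK : ∀ x : K, a (algebraMap K Ω x) = algebraMap K Ω x := by
      intro x
      have h2 : a = j g * (j b')⁻¹ := by rw [hab]; group
      have h3 : a (algebraMap K Ω x) = g (b'⁻¹ (algebraMap K Ω x)) := by rw [h2]; rfl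
      rw [h3, AlgEquiv.commutes, AlgEquiv.commutes]
    obtain ⟨a', rfl⟩ := hlift a haK
    refine ⟨a', (hjβ a').1 ha, b', (hj b').1 hb, ?_⟩
    ext x
    have h2 := congrArg (fun τ : Gal(Ω/K₀) => τ x) hab
    exact h2
  · exact (hj σ).1 (hβ2 A hA (j σ) h2 ((hjβ σ).2 h3))
  · exact (hj σ).1 (hβ3 A (j σ) h2 ((hjβ σ).2 h3))

/-- Rational function fields. -/
theorem hasBase_ff {k : Type*} [Field k] [Finite k] [Algebra (Polynomial k) K]
    [IsFractionRing (Polynomial k) K] [IsSepClosed Ω] {M : Polynomial k} (hM : M ≠ 0) :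
    HasBase K Ω fun A => ev k K Ω Polynomial.X ∉ A ∨ ev k K Ω M ∈ A.nonunits := by
  intro F hF
  obtain ⟨N, hFN, hNfd, hNn⟩ := exists_normal F
  obtain ⟨β, hβ1, hβ2, hβ3⟩ := ff_base (k := k) N hNn hM
  exact ⟨N, β, hFN, hNfd, hNn, hβ1, hβ2, hβ3⟩

end red

end Run7.h375.SH
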