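import Pool.Agent.Run7.h375.SH.Base

/-!
# Approximation of a polynomial
-/

set_option autoImplicit false

namespace Run7.h375.SH

open Polynomial IntermediateField
open scoped Pointwise

variable {K Ω : Type*} [Field K] [Field Ω] [Algebra K Ω] [IsGalois K Ω]

set_option linter.unusedSectionVars false

/-- The product of the differences of the conjugates. -/
noncomputable def dd (K : Type*) {Ω : Type*} [Field K] [Field Ω] [Algebra K Ω] (θ : Ω) : Ω :=
  letI := Classical.decEq Ω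
  ∏ p ∈ (conjs K θ).offDiag, (p.1 - p.2)

section dd

variable {θ : Ω} {A : ValuationSubring Ω}

theorem dd_ne : dd K θ ≠ 0 := by
  classical
  unfold dd
  refine Finset.prod_ne_zero_iff.2 fun p hp => ?_
  convert sub_ne_zero.2 (Finset.mem_offDiag.1 hp).2.2

theorem dd_mem (h : ∀ y ∈ conjs K θ, y ∈ A) : dd K θ ∈ A := by
  classical
  unfold dd
  refine prod_mem fun p hp => ?_
  have hp' := Finset.mem_offDiag.1 (by convert hp)
  exact sub_mem (h _ hp'.1) (h _ hp'.2.1)

theorem dd_div (h : ∀ y ∈ conjs K θ, y ∈ A) {x y : Ω} (hx : x ∈ conjs K θ) (hy : y ∈ conjs K θ)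
    (hxy : x ≠ y) : dd K θ * (x - y)⁻¹ ∈ A := by
  classical
  have hp : (x, y) ∈ (conjs K θ).offDiag := Finset.mem_offDiag.2 ⟨hx, hy, hxy⟩
  have h1 : dd K θ = (x - y) * ∏ p ∈ (conjs K θ).offDiag.erase (x, y), (p.1 - p.2) := by
    unfold dd
    convert (Finset.mul_prod_erase _ (fun p : Ω × Ω => p.1 - p.2) hp).symm
  have h2 : x - y ≠ 0 := sub_ne_zero.2 hxy
  have h3 : dd K θ * (x - y)⁻¹ = ∏ p ∈ (conjs K θ).offDiag.erase (x, y), (p.1 - p.2) := by
    rw [h1]
    field_simp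
  rw [h3]
  refine prod_mem fun p hp => ?_
  have hp' := Finset.mem_offDiag.1 (Finset.mem_of_mem_erase hp)
  exact sub_mem (h _ hp'.1) (h _ hp'.2.1)

theorem dd_fixed (σ : Gal(Ω/K)) : σ (dd K θ) = dd K θ := by
  classical
  unfold dd
  rw [map_prod]
  refine Finset.prod_bij (fun p _ => (σ p.1, σ p.2)) ?_ ?_ ?_ ?_
  · intro p hp
    have hp' := Finset.mem_offDiag.1 (by convert hp)
    have h1 : (σ p.1, σ p.2) ∈ (conjs K θ).offDiag := Finset.mem_offDiag.2
      ⟨smul_mem_conjs σ hp'.1, smul_mem_conjs σ hp'.2.1, fun h => hp'.2.2 (σ.injective h)⟩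
    convert h1
  · intro p _ q _ h
    have h1 := (Prod.mk.injEq _ _ _ _).mp h
    exact Prod.ext (σ.injective h1.1) (σ.injective h1.2)
  · intro p hp
    have hp' := Finset.mem_offDiag.1 (by convert hp)
    have h1 : (σ⁻¹ p.1, σ⁻¹ p.2) ∈ (conjs K θ).offDiag := Finset.mem_offDiag.2
      ⟨smul_mem_conjs _ hp'.1, smul_mem_conjs _ hp'.2.1, fun h => hp'.2.2 (σ⁻¹.injective h)⟩
    refine ⟨(σ⁻¹ p.1, σ⁻¹ p.2), by convert h1, ?_⟩
    have h2 : ∀ z, σ (σ⁻¹ z) = z := fun z => by
      rw [← AlgEquiv.mul_apply, mul_inv_cancel, AlgEquiv.one_apply]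
    exact Prod.ext (h2 _) (h2 _)
  · intro p _
    exact map_sub _ _ _

theorem exists_dd : ∃ δ : K, δ ≠ 0 ∧ algebraMap K Ω δ = dd K θ := by
  have h1 : dd K θ ∈ (⊥ : IntermediateField K Ω) := by
    rw [← InfiniteGalois.fixedField_bot (k := K) (K := Ω)]
    rw [mem_fixedField_iff]
    exact fun σ _ => dd_fixed σ
  obtain ⟨δ, hδ⟩ := mem_bot.1 h1
  refine ⟨δ, ?_, hδ⟩
  rintro rfl
  rw [map_zero] at hδ
  exact dd_ne hδ.symm

end dd

/-- **Krasner.** -/
theorem krasner {θ β : Ω} {A : ValuationSubring Ω} (hA : ∀ y ∈ conjs K θ, y ∈ A) {r a : Ω}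
    (ha : a ∈ A) (hβ : ∏ y ∈ conjs K θ, (β - y) = r * a)
    (hr : r * (dd K θ ^ (conjs K θ).card)⁻¹ ∈ A.nonunits) (hr0 : r ≠ 0) {σ : Gal(Ω/K)}
    (hσA : σ • A = A) (hσβ : σ β = β) : ∃ y ∈ conjs K θ, σ y = y := by
  classical
  have hd := dd_ne (K := K) (θ := θ)
  set n := (conjs K θ).card with hn
  have h1 : ∃ y ∈ conjs K θ, (β - y) * (dd K θ)⁻¹ ∈ A.nonunits := by
    by_contra hcon
    push Not at hcon
    have h2 : ∏ y ∈ conjs K θ, ((β - y) * (dd K θ)⁻¹)⁻¹ ∈ A :=
      prod_mem fun y hy => (inv_of_not (hcon y hy)).2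
    have h3 : ∏ y ∈ conjs K θ, ((β - y) * (dd K θ)⁻¹)⁻¹ = (r * a)⁻¹ * dd K θ ^ n := by
      rw [← hβ]
      simp only [mul_inv, inv_inv]
      rw [Finset.prod_mul_distrib, Finset.prod_const, Finset.prod_inv_distrib]
    rw [h3] at h2
    by_cases ha0 : a = 0
    · -- then `β` is a conjugate
      rw [ha0, mul_zero] at hβ
      obtain ⟨y, hy, hy0⟩ := Finset.prod_eq_zero_iff.1 hβ
      apply hcon y hy
      rw [hy0, zero_mul, nonunit_iff]
      exact Or.inl rfl
    apply one_nonunit (A := A)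
    have h4 : (1 : Ω) = (r * (dd K θ ^ n)⁻¹) * (((r * a)⁻¹ * dd K θ ^ n) * a) := by
      field_simp
    rw [h4]
    exact nonunit_mul hr (mul_mem h2 ha)
  obtain ⟨y, hy, h2⟩ := h1
  refine ⟨y, hy, ?_⟩
  by_contra hne
  have h3 := smul_nonunits hσA h2
  rw [map_mul, map_sub, hσβ, map_inv₀, dd_fixed] at h3
  have h4 : (σ y - y) * (dd K θ)⁻¹ ∈ A.nonunits := by
    have h5 : (σ y - y) * (dd K θ)⁻¹ = (β - y) * (dd K θ)⁻¹ - (β - σ y) * (dd K θ)⁻¹ := by ring
    rw [h5]
    exact sub_mem h2 h3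
  apply one_nonunit (A := A)
  have h5 : σ y - y ≠ 0 := sub_ne_zero.2 hne
  have h6 : (1 : Ω) = ((σ y - y) * (dd K θ)⁻¹) * (dd K θ * (σ y - y)⁻¹) := by
    field_simp
  rw [h6]
  exact nonunit_mul h4 (dd_div hA (smul_mem_conjs σ hy) hy hne)

/-- A monic factor of an Eisenstein-type polynomial has a constant coefficient in the maximal
ideal. -/
theorem factor_coeff {A : ValuationSubring Ω} {h P : Polynomial Ω} (hm : h.Monic)
    (hc : ∀ i, i < h.natDegree → h.coeff i ∈ A.nonunits) (hP : P.Monic) (hP0 : P.natDegree ≠ 0)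
    (hd : P ∣ h) : P.coeff 0 ∈ A.nonunits := by
  have h1 : h ∈ lifts (algebraMap A Ω) := by
    rw [lifts_iff_coeff_lifts]
    intro i
    rcases lt_trichotomy i h.natDegree with hi | hi | hi
    · exact ⟨⟨h.coeff i, nonunit_mem (hc i hi)⟩, rfl⟩
    · subst hi
      rw [hm.coeff_natDegree]
      exact ⟨1, map_one _⟩
    · rw [coeff_eq_zero_of_natDegree_lt hi]
      exact ⟨0, map_zero _⟩
  obtain ⟨f, hf1, hf2, hf3⟩ := lifts_and_natDegree_eq_and_monic h1 hm
  have hPd : P ∣ f.map (algebraMap A Ω) := by rw [hf1]; exact hd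
  obtain ⟨P', hP'⟩ := IsIntegrallyClosed.eq_map_mul_C_of_dvd Ω hf3 hPd
  rw [hP.leadingCoeff, C_1, mul_one] at hP'
  have hinj : Function.Injective (algebraMap A Ω) := Subtype.val_injective
  have hP'm : P'.Monic := by
    rw [← hP'] at hP
    exact (Function.Injective.monic_map_iff hinj).2 hP
  have hdiv : P' ∣ f := by
    rw [← hP'] at hPd
    exact (map_dvd_map _ hinj hP'm).1 hPd
  -- reduction
  let m := IsLocalRing.maximalIdeal A
  let φ := Ideal.Quotient.mk m
  have hfX : f.map φ = X ^ f.natDegree := by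
    ext i
    rw [coeff_map, coeff_X_pow]
    rcases lt_trichotomy i f.natDegree with hi | hi | hi
    · rw [if_neg hi.ne]
      apply Ideal.Quotient.eq_zero_iff_mem.2
      show f.coeff i ∈ IsLocalRing.maximalIdeal A
      rw [← ValuationSubring.coe_mem_nonunits_iff]
      have h2 := hc i (by rw [← hf2]; exact hi)
      have h3 : ((f.coeff i : A) : Ω) = h.coeff i := by
        rw [← hf1, coeff_map]
        rfl
      rw [h3]
      exact h2
    · subst hi
      rw [if_pos rfl, hf3.coeff_natDegree, map_one]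
    · rw [if_neg hi.ne', coeff_eq_zero_of_natDegree_lt hi, map_zero]
  have hdvd : P'.map φ ∣ X ^ f.natDegree := by
    rw [← hfX]
    exact Polynomial.map_dvd φ hdiv
  have hmax : m.IsMaximal := inferInstance
  let _ : Field (A ⧸ m) := Ideal.Quotient.field m
  obtain ⟨i, -, hi⟩ := (dvd_prime_pow (prime_X (R := A ⧸ m)) _).1 hdvd
  have hdeg : (P'.map φ).natDegree ≠ 0 := by
    rw [hP'm.natDegree_map φ]
    have h2 : P'.natDegree = P.natDegree := by
      rw [← hP', natDegree_map_eq_of_injective hinj]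
    rwa [h2]
  have hX : X ∣ P'.map φ := by
    rcases Nat.eq_zero_or_pos i with h0 | h0
    · subst h0
      rw [pow_zero] at hi
      exfalso
      apply hdeg
      have h2 : IsUnit (P'.map φ) := associated_one_iff_isUnit.1 hi
      exact natDegree_eq_zero_of_isUnit h2
    · exact (dvd_pow_self X h0.ne').trans hi.symm.dvd
  rw [X_dvd_iff, coeff_map] at hX
  have h2 : P'.coeff 0 ∈ IsLocalRing.maximalIdeal A := Ideal.Quotient.eq_zero_iff_mem.1 hX
  rw [← ValuationSubring.coe_mem_nonunits_iff] at h2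
  rw [← hP', coeff_map]
  exact h2

/-- Elements of `K(θ)` all of whose conjugates are in the maximal ideal are divisible by `π`, if the
discriminant is a unit. -/
theorem unram {θ : Ω} {A : ValuationSubring Ω} (hA : ∀ y ∈ conjs K θ, y ∈ A)
    (hd : (dd K θ)⁻¹ ∈ A) {π : Ω} (hπ : ∀ c : K, algebraMap K Ω c ∈ A.nonunits →
      algebraMap K Ω c * π⁻¹ ∈ A) {x : Ω} (hx : x ∈ K⟮θ⟯)
    (hxA : ∀ σ : Gal(Ω/K), σ x ∈ A.nonunits) : x * π⁻¹ ∈ A := by
  classical
  -- a polynomial
  have hint := integral (K := K) θ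
  obtain ⟨P, hPdeg, hPx⟩ : ∃ P : Polynomial K, P.degree < (conjs K θ).card ∧ aeval θ P = x := by
    have h1 : x ∈ Algebra.adjoin K {θ} := by
      rw [← adjoin_simple_toSubalgebra_of_isAlgebraic hint.isAlgebraic]
      exact hx
    rw [Algebra.adjoin_singleton_eq_range_aeval] at h1
    obtain ⟨Q, hQ⟩ := h1
    refine ⟨Q %ₘ minpoly K θ, ?_, ?_⟩
    · rw [card_conjs, ← degree_eq_natDegree (minpoly.ne_zero hint)]
      exact degree_modByMonic_lt _ (minpoly.monic hint)
    · rw [← hQ]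
      exact minpoly.aeval_modByMonic_minpoly _ _
  set f : Polynomial Ω := P.map (algebraMap K Ω) with hf
  have hfdeg : f.degree < (conjs K θ).card := by
    rw [hf, degree_map]
    exact hPdeg
  have hfe : ∀ y ∈ conjs K θ, f.eval y ∈ A.nonunits := by
    intro y hy
    obtain ⟨σ, rfl⟩ := mem_conjs.1 hy
    have h1 : f.eval (σ θ) = σ x := by
      rw [hf, eval_map, ← aeval_def, ← hPx]
      exact (aeval_algHom_apply (σ : Ω →ₐ[K] Ω) θ P)
    rw [h1]
    exact hxA σ
  have hinj : Set.InjOn (fun y : Ω => y) (conjs K θ : Set Ω) := fun _ _ _ _ h => h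
  have hfi := Lagrange.eq_interpolate hinj hfdeg
  have hco : ∀ i, f.coeff i ∈ A.nonunits := by
    intro i
    rw [hfi, Lagrange.interpolate_apply, finsetSum_coeff]
    refine sum_mem fun y hy => ?_
    rw [coeff_C_mul]
    refine nonunit_mul (hfe y hy) ?_
    -- the coefficients of the basis polynomials
    have h1 : Lagrange.basis (conjs K θ) (fun y : Ω => y) y ∈ lifts (algebraMap A Ω) := by
      unfold Lagrange.basis
      refine prod_mem fun z hz => ?_
      obtain ⟨hz1, hz2⟩ := Finset.mem_erase.1 hz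
      unfold Lagrange.basisDivisor
      have h5 : (X - C z : Polynomial Ω) = X + C (-z) := by rw [C_neg, sub_eq_add_neg]
      rw [h5]
      refine mul_mem ?_ (add_mem (X_mem_lifts _) ?_)
      · have h2 : (y - z)⁻¹ ∈ A := by
          have h3 := mul_mem hd (dd_div hA hy hz2 (Ne.symm hz1))
          have h4 : (dd K θ)⁻¹ * (dd K θ * (y - z)⁻¹) = (y - z)⁻¹ := by
            rw [← mul_assoc, inv_mul_cancel₀ dd_ne, one_mul]
          rwa [h4] at h3
        exact C_mem_lifts (algebraMap A Ω) (⟨_, h2⟩ : A)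
      · exact C_mem_lifts (algebraMap A Ω) (⟨-z, neg_mem (hA z hz2)⟩ : A)
    rw [lifts_iff_coeff_lifts] at h1
    obtain ⟨w, hw⟩ := h1 i
    rw [← hw]
    exact w.2
  -- the coefficients are divisible
  have h1 : x * π⁻¹ = ∑ i ∈ Finset.range (P.natDegree + 1),
      (algebraMap K Ω (P.coeff i) * π⁻¹) * θ ^ i := by
    rw [← hPx, aeval_eq_sum_range, Finset.sum_mul]
    refine Finset.sum_congr rfl fun i _ => ?_
    rw [Algebra.smul_def]
    ring
  rw [h1]
  refine sum_mem fun i _ => mul_mem (hπ _ ?_) (pow_mem (hA θ (self_mem θ)) i)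
  have h2 := hco i
  rwa [hf, coeff_map] at h2

end Run7.h375.SH
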